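import Pool.Agent.Work.MP_27623f_ag.GR.Comp
import Pool.Agent.Work.MP_27623f_ag.Frob

/-!
MODULE Back (size M).  A homomorphism `S^{1/q} → S` gives information on the Frobenius powers of the `m`-primary ideals of `R`.

PROOF.  Put `J = I.comap (algebraMap S R)`.  (1) `irr 𝒜 ^ M ≤ J` for some `M` (`m^M ≤ I`, `algebraMap (irr 𝒜) ⊆ m`).
(2) `I = J.map (algebraMap S R)`: for `g ∈ I` take `g' : S` with `g - g' ∈ m^M = (irr 𝒜 ^ M) R` (`hR.surj`, `hR.max`,
`Ideal.map_pow`); then `g' ∈ J`.  (3) So `frobPow I q = (frobPow J q) R` (`Ideal.map_span`, powers; or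
`frobPow_eq_map` and the ring homomorphism commutes with Frobenius, `Ideal.map_map`).  (4) `irr 𝒜 ^ M' ≤ frobPow J q` for some
`M'` (`irr 𝒜` is finitely generated, `S` Noetherian; `Ideal.exists_pow_le_of_le_radical_of_fg`).  (5) If `s' ∈ S` and
`algebraMap s' ∈ (frobPow J q) R` then `s' ∈ frobPow J q`: `s' = ∑ r_i g_i` in `R`, replace `r_i` by `s_i : S` modulo `m^M'`; then
`s' - ∑ s_i g_i` is in `m^M'`, so it is in `irr 𝒜 ^ M' ≤ frobPow J q` by `hR.inj`.
Now take `w' : S` with `w - w' ∈ m^M ≤ I`.  `r w^q ∈ frobPow I q` and `r - s ∈ frobPow I q`, `w^q - w'^q = (w - w')^q ∈ frobPow I q`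
(`sub_pow_char_pow`), so `s w'^q ∈ frobPow J q` by (5), `s w'^q = ∑ c_i g_i^q` with `g_i ∈ J`, and applying `Φ`:
`w' Φ(s) = ∑ g_i Φ(c_i) ∈ J`.  In `R`: `Φ(s) w' ∈ I` and `w - w' ∈ I`, so `Φ(s) w ∈ I`.
-/

set_option autoImplicit false

namespace Pool.Agent.FSig.GR

theorem back {k S : Type*} [Field k] [CommRing S] [Algebra k S] (𝒜 : ℕ → Submodule k S)
    [GradedAlgebra 𝒜] [IsNoetherianRing S] {R : Type*} [CommRing R] [IsLocalRing R] [Algebra S R]
    (hR : LocalModel 𝒜 R) (p e : ℕ) [Fact p.Prime] [CharP R p] (I : Ideal R)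
    (hI : ∃ N, IsLocalRing.maximalIdeal R ^ N ≤ I) (Φ : S →+ S)
    (hΦ : ∀ s x, Φ (s ^ p ^ e * x) = s * Φ x) (r w : R) (s : S)
    (hs : r - algebraMap S R s ∈ frobPow I (p ^ e)) (h : r * w ^ p ^ e ∈ frobPow I (p ^ e)) :
    algebraMap S R (Φ s) * w ∈ I := by
  classical
  obtain ⟨M, hM⟩ := hI
  set f := algebraMap S R with hf
  have : ExpChar R p := ExpChar.prime Fact.out
  set J : Ideal S := I.comap f with hJ
  have hpow : ∀ N, (irr 𝒜 ^ N).map f = IsLocalRing.maximalIdeal R ^ N := by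
    intro N
    rw [Ideal.map_pow, hR.max]
  have h1 : irr 𝒜 ^ M ≤ J := by
    rw [hJ, ← Ideal.map_le_iff_le_comap, hpow]
    exact hM
  have h2 : I = J.map f := by
    apply le_antisymm
    · intro g hg
      obtain ⟨g', hg'⟩ := hR.surj M g
      have h3 : f g' ∈ I := by
        have : f g' = g - (g - f g') := by ring
        rw [this]
        exact I.sub_mem hg (hM hg')
      have h4 : g = (g - f g') + f g' := by ring
      rw [h4]
      refine Ideal.add_mem _ ?_ (Ideal.mem_map_of_mem _ h3)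
      rw [← hpow] at hg'
      exact Ideal.map_mono h1 hg'
    · rw [Ideal.map_le_iff_le_comap]
  have h3 : frobPow I (p ^ e) ≤ (frobPow J (p ^ e)).map f := by
    rw [frobPow_eq_map p e I]
    conv_lhs => rw [h2]
    rw [Ideal.map_map, Ideal.map_le_iff_le_comap]
    intro x hx
    rw [Ideal.mem_comap, RingHom.comp_apply, iterateFrobenius_def, ← map_pow]
    exact Ideal.mem_map_of_mem _ (pow_mem_frobPow _ hx)
  obtain ⟨M', hM'⟩ : ∃ n, irr 𝒜 ^ n ≤ frobPow J (p ^ e) := by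
    apply Ideal.exists_pow_le_of_le_radical_of_fg _ (IsNoetherian.noetherian _)
    intro x hx
    refine ⟨M * p ^ e, ?_⟩
    rw [pow_mul]
    exact pow_mem_frobPow _ (h1 (Ideal.pow_mem_pow hx M))
  have h4 : ∀ x ∈ (frobPow J (p ^ e)).map f, ∃ c ∈ frobPow J (p ^ e),
      x - f c ∈ IsLocalRing.maximalIdeal R ^ M' := by
    intro x hx
    refine Submodule.span_induction (p := fun x _ => ∃ c ∈ frobPow J (p ^ e),
      x - f c ∈ IsLocalRing.maximalIdeal R ^ M') ?_ ?_ ?_ ?_ hx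
    · rintro _ ⟨c, hc, rfl⟩
      exact ⟨c, hc, by rw [sub_self]; exact Ideal.zero_mem _⟩
    · exact ⟨0, Ideal.zero_mem _, by rw [map_zero, sub_zero]; exact Ideal.zero_mem _⟩
    · rintro a b _ _ ⟨c, hc, hc'⟩ ⟨d, hd, hd'⟩
      refine ⟨c + d, Ideal.add_mem _ hc hd, ?_⟩
      have : a + b - f (c + d) = (a - f c) + (b - f d) := by rw [map_add]; ring
      rw [this]
      exact Ideal.add_mem _ hc' hd'
    · rintro a b _ ⟨c, hc, hc'⟩
      obtain ⟨a', ha'⟩ := hR.surj M' a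
      refine ⟨a' * c, Ideal.mul_mem_left _ _ hc, ?_⟩
      have : a • b - f (a' * c) = a * (b - f c) + f c * (a - f a') := by
        rw [map_mul, smul_eq_mul]; ring
      rw [this]
      exact Ideal.add_mem _ (Ideal.mul_mem_left _ _ hc') (Ideal.mul_mem_left _ _ ha')
  have h5 : ∀ x : S, f x ∈ (frobPow J (p ^ e)).map f → x ∈ frobPow J (p ^ e) := by
    intro x hx
    obtain ⟨c, hc, hc'⟩ := h4 _ hx
    rw [← map_sub] at hc'
    have h6 := hM' (hR.inj _ _ hc')
    have : x = (x - c) + c := by ring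
    rw [this]
    exact Ideal.add_mem _ h6 hc
  obtain ⟨w', hw'⟩ := hR.surj M w
  have h6 : f (s * w' ^ p ^ e) ∈ frobPow I (p ^ e) := by
    have e1 : w ^ p ^ e - f w' ^ p ^ e = (w - f w') ^ p ^ e := (sub_pow_expChar_pow w (f w') e).symm
    have e2 : f (s * w' ^ p ^ e) = r * w ^ p ^ e - w ^ p ^ e * (r - f s)
        - f s * (w ^ p ^ e - f w' ^ p ^ e) := by
      rw [map_mul, map_pow]; ring
    rw [e2, e1]
    exact Ideal.sub_mem _ (Ideal.sub_mem _ h (Ideal.mul_mem_left _ _ hs))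
      (Ideal.mul_mem_left _ _ (pow_mem_frobPow _ (hM hw')))
  have h7 : s * w' ^ p ^ e ∈ frobPow J (p ^ e) := h5 _ (h3 h6)
  have h8 : ∀ x ∈ frobPow J (p ^ e), ∀ c : S, Φ (c * x) ∈ J := by
    intro x hx
    refine Submodule.span_induction (p := fun x _ => ∀ c : S, Φ (c * x) ∈ J) ?_ ?_ ?_ ?_ hx
    · rintro _ ⟨g, hg, rfl⟩ c
      show Φ (c * g ^ p ^ e) ∈ J
      rw [mul_comm, hΦ]
      exact Ideal.mul_mem_right _ _ hg
    · intro c
      rw [mul_zero, map_zero]
      exact Ideal.zero_mem _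
    · intro a b _ _ ha hb c
      rw [mul_add, map_add]
      exact Ideal.add_mem _ (ha c) (hb c)
    · intro a b _ hb c
      rw [smul_eq_mul, ← mul_assoc]
      exact hb _
  have h9 : w' * Φ s ∈ J := by
    have := h8 _ h7 1
    rw [one_mul, mul_comm, hΦ] at this
    exact this
  have h10 : f (Φ s) * w = f (Φ s) * (w - f w') + f (w' * Φ s) := by
    rw [map_mul]; ring
  rw [h10]
  exact Ideal.add_mem _ (Ideal.mul_mem_left _ _ (hM hw')) h9

end Pool.Agent.FSig.GR
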