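import Pool.Agent.Work.MP_27623f_ag.GR.Defs

/-!
MODULE Comp (size M).  The homogeneous components of the elements of the local model.

PROOF.  `mem_irr_pow`: an element of `irr 𝒜 ^ N` has zero components in degrees `< N` (span induction on products of
elements with zero component in degree `0`; or the ideal of all `s` with zero components in degrees `< N`, and
`I_M * I_N ≤ I_(M+N)`).
`exists_comp`: for `r : R` and `n` choose `s` with `r - s ∈ m^(n+1)` (`hR.surj`) and put `π n r = proj n s`.  It does not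
depend on `s`: if `s - s' ∈ m^(n+1)` in `R` then `s - s' ∈ irr 𝒜 ^ (n+1)` (`hR.inj`), so `proj n s = proj n s'`; the same
holds if `s` is only close to `r` modulo `m^M` with some `M ≥ n + 1`.  Additivity follows.  `π (i + n) (s r) = s π n r` for
`s ∈ 𝒜 i`: choose `t` close to `r`, modulo `m^(i+n+1)`; `s t` is close to `s r`, and `proj (i+n) (s t) = s proj n t`
(`GradedRing`/`DirectSum` lemma `DirectSum.coe_decompose_mul_of_left_mem`...), `proj n (s t) = 0` for `n < i`.
`π 0 r ≠ 0` for `r ∉ m`: otherwise `proj 0 s = 0`, so `s ∈ irr 𝒜` and `algebraMap s ∈ m` by `hR.max`, `r ∈ m`.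
-/

set_option autoImplicit false

namespace Pool.Agent.FSig.GR

theorem mem_irr {k S : Type*} [Field k] [CommRing S] [Algebra k S] (𝒜 : ℕ → Submodule k S)
    [GradedAlgebra 𝒜] (s : S) : s ∈ irr 𝒜 ↔ GradedRing.proj 𝒜 0 s = 0 := by
  exact HomogeneousIdeal.mem_irrelevant_iff 𝒜 s

private theorem proj_mul_zero {k S : Type*} [Field k] [CommRing S] [Algebra k S]
    (𝒜 : ℕ → Submodule k S) [GradedAlgebra 𝒜] {M N : ℕ} {a b : S}
    (ha : ∀ i < M, GradedRing.proj 𝒜 i a = 0) (hb : ∀ i < N, GradedRing.proj 𝒜 i b = 0)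
    {n : ℕ} (hn : n < M + N) : GradedRing.proj 𝒜 n (a * b) = 0 := by
  classical
  rw [GradedRing.proj_apply, DirectSum.decompose_mul, DirectSum.coe_mul_apply]
  refine Finset.sum_eq_zero fun ij hij => ?_
  rw [Finset.mem_filter] at hij
  rcases lt_or_ge ij.1 M with h | h
  · have := ha ij.1 h
    rw [GradedRing.proj_apply] at this
    rw [this, zero_mul]
  · have := hb ij.2 (by omega)
    rw [GradedRing.proj_apply] at this
    rw [this, mul_zero]

theorem mem_irr_pow {k S : Type*} [Field k] [CommRing S] [Algebra k S] (𝒜 : ℕ → Submodule k S)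
    [GradedAlgebra 𝒜] {N : ℕ} {s : S} (hs : s ∈ irr 𝒜 ^ N) {n : ℕ} (hn : n < N) :
    GradedRing.proj 𝒜 n s = 0 := by
  classical
  let J : ℕ → Ideal S := fun N =>
    { carrier := {s | ∀ n < N, GradedRing.proj 𝒜 n s = 0}
      add_mem' := fun {a b} ha hb n hn => by rw [map_add, ha n hn, hb n hn, add_zero]
      zero_mem' := fun n _ => map_zero _
      smul_mem' := fun c x hx n hn => by
        rw [smul_eq_mul]
        exact proj_mul_zero 𝒜 (M := 0) (fun i hi => absurd hi (Nat.not_lt_zero i)) hx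
          (by rwa [zero_add]) }
  have hle : ∀ N, irr 𝒜 ^ N ≤ J N := by
    intro N
    induction N with
    | zero => intro x _ n hn; exact absurd hn (Nat.not_lt_zero n)
    | succ N ih =>
      rw [pow_succ, Ideal.mul_le]
      intro r hr s hs n hn
      refine proj_mul_zero 𝒜 (M := N) (N := 1) (ih hr) (fun i hi => ?_) hn
      have : i = 0 := by omega
      subst this
      exact (mem_irr 𝒜 s).mp hs
  exact hle N hs n hn

theorem exists_comp {k S : Type*} [Field k] [CommRing S] [Algebra k S] (𝒜 : ℕ → Submodule k S)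
    [GradedAlgebra 𝒜] {R : Type*} [CommRing R] [IsLocalRing R] [Algebra S R]
    (hR : LocalModel 𝒜 R) :
    ∃ π : ℕ → (R →+ S), (∀ n s, π n (algebraMap S R s) = GradedRing.proj 𝒜 n s) ∧
      (∀ n r, π n r ∈ 𝒜 n) ∧
      (∀ n, ∀ r ∈ IsLocalRing.maximalIdeal R ^ (n + 1), π n r = 0) ∧
      (∀ i n, ∀ s ∈ 𝒜 i, ∀ r : R, π (i + n) (algebraMap S R s * r) = s * π n r) ∧
      (∀ i n, n < i → ∀ s ∈ 𝒜 i, ∀ r : R, π n (algebraMap S R s * r) = 0) ∧
      ∀ r, r ∉ IsLocalRing.maximalIdeal R → π 0 r ≠ 0 := by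
  classical
  set m := IsLocalRing.maximalIdeal R with hm
  choose c hc using fun n : ℕ => hR.surj (n + 1)
  have key : ∀ (n : ℕ) (r : R) (s : S), r - algebraMap S R s ∈ m ^ (n + 1) →
      GradedRing.proj 𝒜 n (c n r) = GradedRing.proj 𝒜 n s := by
    intro n r s hs
    have h1 : algebraMap S R (c n r - s) ∈ m ^ (n + 1) := by
      have : algebraMap S R (c n r - s) = (r - algebraMap S R s) - (r - algebraMap S R (c n r)) := by
        rw [map_sub]; ring
      rw [this]
      exact (m ^ (n + 1)).sub_mem hs (hc n r)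
    have h2 := mem_irr_pow 𝒜 (hR.inj _ _ h1) (Nat.lt_succ_self n)
    rw [map_sub] at h2
    exact sub_eq_zero.mp h2
  have hadd : ∀ n (r r' : R), GradedRing.proj 𝒜 n (c n (r + r')) =
      GradedRing.proj 𝒜 n (c n r) + GradedRing.proj 𝒜 n (c n r') := by
    intro n r r'
    rw [← map_add]
    refine key n _ _ ?_
    have : r + r' - algebraMap S R (c n r + c n r') =
        (r - algebraMap S R (c n r)) + (r' - algebraMap S R (c n r')) := by
      rw [map_add]; ring
    rw [this]
    exact (m ^ (n + 1)).add_mem (hc n r) (hc n r')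
  refine ⟨fun n => AddMonoidHom.mk' (fun r => GradedRing.proj 𝒜 n (c n r)) (hadd n),
    ?_, ?_, ?_, ?_, ?_, ?_⟩
  · intro n s
    show GradedRing.proj 𝒜 n (c n (algebraMap S R s)) = _
    exact key n _ _ (by rw [sub_self]; exact (m ^ (n + 1)).zero_mem)
  · intro n r
    show GradedRing.proj 𝒜 n (c n r) ∈ 𝒜 n
    rw [GradedRing.proj_apply]
    exact SetLike.coe_mem _
  · intro n r hr
    show GradedRing.proj 𝒜 n (c n r) = 0
    rw [key n r 0 (by rw [map_zero, sub_zero]; exact hr), map_zero]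
  · intro i n s hs r
    show GradedRing.proj 𝒜 (i + n) (c (i + n) (algebraMap S R s * r)) =
      s * GradedRing.proj 𝒜 n (c n r)
    obtain ⟨t, ht⟩ := hR.surj (i + n + 1) r
    rw [key (i + n) _ (s * t) (by
      rw [map_mul, ← mul_sub]
      exact (m ^ (i + n + 1)).mul_mem_left _ ht)]
    rw [key n r t (Ideal.pow_le_pow_right (by omega) ht)]
    rw [GradedRing.proj_apply, GradedRing.proj_apply]
    exact DirectSum.coe_decompose_mul_add_of_left_mem 𝒜 hs
  · intro i n hn s hs r
    show GradedRing.proj 𝒜 n (c n (algebraMap S R s * r)) = 0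
    obtain ⟨t, ht⟩ := hR.surj (n + 1) r
    rw [key n _ (s * t) (by
      rw [map_mul, ← mul_sub]
      exact (m ^ (n + 1)).mul_mem_left _ ht)]
    rw [GradedRing.proj_apply]
    exact DirectSum.coe_decompose_mul_of_left_mem_of_not_le 𝒜 hs (not_le.mpr hn)
  · intro r hr h0
    apply hr
    have h1 : c 0 r ∈ irr 𝒜 := (mem_irr 𝒜 _).mpr h0
    have h2 : algebraMap S R (c 0 r) ∈ m := by
      rw [hm, ← hR.max]
      exact Ideal.mem_map_of_mem _ h1
    have h3 := hc 0 r
    rw [zero_add, pow_one] at h3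
    have : r = (r - algebraMap S R (c 0 r)) + algebraMap S R (c 0 r) := by ring
    rw [this]
    exact m.add_mem h3 h2

end Pool.Agent.FSig.GR
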