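import Pool.Agent.Work.MP_27623f_ag.SA.Defs

/-!
MP_27623f_ag / GR: graded rings.  Definitions (fixed).

`S = ∑_{n ≥ 0} S_n` is a graded algebra over the field `S_0 = k`, `R` a local ring with the same Artinian quotients
(the localization or the completion of `S` at `S_+`), `S = k[y_1, ..., y_N]`, `y_i` of degree `a_i`.
-/

set_option autoImplicit false

namespace Pool.Agent.FSig.GR

open MvPolynomial

/-- The irrelevant ideal `S_+ = ∑_{n > 0} S_n`. -/
noncomputable def irr {k S : Type*} [Field k] [CommRing S] [Algebra k S] (𝒜 : ℕ → Submodule k S)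
    [GradedAlgebra 𝒜] : Ideal S := (HomogeneousIdeal.irrelevant 𝒜).toIdeal

/-- `S → R` is a ring homomorphism to a local ring `(R, m)` with `m = S_+ R` and `S / S_+^N = R / m^N` for all `N`,
for instance the localization or the completion of `S` at `S_+`. -/
structure LocalModel {k S : Type*} [Field k] [CommRing S] [Algebra k S] (𝒜 : ℕ → Submodule k S)
    [GradedAlgebra 𝒜] (R : Type*) [CommRing R] [IsLocalRing R] [Algebra S R] : Prop where
  max : (irr 𝒜).map (algebraMap S R) = IsLocalRing.maximalIdeal R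
  surj : ∀ (N : ℕ) (r : R), ∃ s : S, r - algebraMap S R s ∈ IsLocalRing.maximalIdeal R ^ N
  inj : ∀ (N : ℕ) (s : S), algebraMap S R s ∈ IsLocalRing.maximalIdeal R ^ N → s ∈ irr 𝒜 ^ N

/-- In degrees `≤ D` the additive map `f` is a homomorphism `S^{1/q} → S`. -/
def Part {k S : Type*} [Field k] [CommRing S] [Algebra k S] (𝒜 : ℕ → Submodule k S)
    (q D : ℕ) (f : S →+ S) : Prop :=
  ∀ (i n : ℕ) (s x : S), s ∈ 𝒜 i → x ∈ 𝒜 n → n + q * i ≤ D → f (s ^ q * x) = s * f x

/-- `∑ c_μ Y^μ ↦ ∑ y^(μ div q) f(c_μ y^(μ mod q))` -/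
noncomputable def Psi {k S : Type*} [Field k] [CommRing S] [Algebra k S] (q : ℕ) {N : ℕ}
    (y : Fin N → S) (f : S →+ S) (g : MvPolynomial (Fin N) k) : S :=
  ∑ μ ∈ g.support, (∏ i, y i ^ (μ i / q)) * f (algebraMap k S (coeff μ g) * ∏ i, y i ^ (μ i % q))

end Pool.Agent.FSig.GR
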