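import Pool.Agent.Work.MP_27623f_ag.GR.Defs

/-!
MODULE Irr (size S-M).  An irreducible ideal primary to the maximal ideal has a socle generator.

PROOF.  Let `m^N ≤ I`, `I ≠ ⊤`, `N` minimal, so `N ≥ 1` and there is `w ∈ m^(N-1)`, `w ∉ I`; then `w m ⊆ m^N ≤ I`.  Let `a ∉ I`.
There is a multiple `c a ∉ I` with `c a m ⊆ I` (take `j` minimal with `a m^j ⊆ I`, `j ≥ 1`, and an element of `a m^(j-1)` not in `I`;
the elements of `a m^(j-1)` are multiples of `a`).  The ideals `I ⊔ (w)` and `I ⊔ (c a)` are both different from `I`, so by `hirr`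
their intersection is not `I`: there is `x ∉ I` with `x = α w = β c a` modulo `I`.  `α` is a unit (otherwise `α w ∈ I`), so
`w = α⁻¹ β c a` modulo `I`.  This gives `SA.Pair R I w`.  Second claim: `x` with `x m ⊆ I` is in `I ⊔ (w)`: if `x ∉ I` there is
`b` with `b x - w ∈ I`, `b` is a unit (otherwise `w ∈ I`), so `x ∈ I ⊔ (w)`; conversely `(w) m ⊆ I`.
-/

set_option autoImplicit false

namespace Pool.Agent.FSig.GR

open IsLocalRing in
private theorem irr_mult {R : Type*} [CommRing R] [IsLocalRing R] (I : Ideal R)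
    (hprim : ∃ N, maximalIdeal R ^ N ≤ I) (a : R) (ha : a ∉ I) :
    ∃ c, c * a ∉ I ∧ ∀ y ∈ maximalIdeal R, c * a * y ∈ I := by
  classical
  obtain ⟨N, hN⟩ := hprim
  have hex : ∃ j, ∀ y ∈ maximalIdeal R ^ j, y * a ∈ I := ⟨N, fun y hy => I.mul_mem_right a (hN hy)⟩
  have hspec := Nat.find_spec hex
  have hmin := fun j => @Nat.find_min _ _ hex j
  have hpos : Nat.find hex ≠ 0 := by
    intro h0
    rw [h0] at hspec
    apply ha
    have h7 : (1 : R) ∈ maximalIdeal R ^ 0 := by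
      rw [pow_zero, Ideal.one_eq_top]
      exact Submodule.mem_top
    have := hspec 1 h7
    rwa [one_mul] at this
  obtain ⟨j, hj⟩ := Nat.exists_eq_succ_of_ne_zero hpos
  have h1 := hmin j (by omega)
  push Not at h1
  obtain ⟨c, hc, hca⟩ := h1
  refine ⟨c, hca, fun y hy => ?_⟩
  have h2 : c * y ∈ maximalIdeal R ^ Nat.find hex := by
    rw [hj, pow_succ]
    exact Ideal.mul_mem_mul hc hy
  have h3 := hspec _ h2
  have e : c * a * y = c * y * a := by ring
  rw [e]
  exact h3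

open IsLocalRing in
private theorem irr_unit {R : Type*} [CommRing R] [IsLocalRing R] {x : R} (hx : x ∉ maximalIdeal R) :
    IsUnit x := by
  by_contra h
  exact hx ((mem_maximalIdeal x).mpr h)

theorem exists_socle {R : Type*} [CommRing R] [IsLocalRing R] (I J : Ideal R) (hI : I ≠ ⊤)
    (hprim : ∃ N, IsLocalRing.maximalIdeal R ^ N ≤ I)
    (hirr : ∀ A B : Ideal R, A ⊓ B = I → A = I ∨ B = I)
    (hJ : ∀ x, x ∈ J ↔ ∀ y ∈ IsLocalRing.maximalIdeal R, x * y ∈ I) :
    ∃ w, SA.Pair R I w ∧ J = I ⊔ Ideal.span {w} := by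
  have h1 : (1 : R) ∉ I := fun h => hI ((Ideal.eq_top_iff_one I).mpr h)
  obtain ⟨w, hw, hwm⟩ := irr_mult I hprim 1 h1
  rw [mul_one] at hw
  simp only [mul_one] at hwm
  have hne : ∀ z : R, z ∉ I → I ⊔ Ideal.span {z} ≠ I := by
    intro z hz h
    apply hz
    rw [← h]
    exact Ideal.mem_sup_right (Ideal.mem_span_singleton_self z)
  have hpair : SA.Pair R I w := by
    refine ⟨hprim, hw, fun a ha => ?_⟩
    obtain ⟨c, hca, hcm⟩ := irr_mult I hprim a ha
    have hinf : (I ⊔ Ideal.span {w}) ⊓ (I ⊔ Ideal.span {c * a}) ≠ I := by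
      intro h
      rcases hirr _ _ h with h2 | h2
      · exact hne w hw h2
      · exact hne _ hca h2
    have hle : I ≤ (I ⊔ Ideal.span {w}) ⊓ (I ⊔ Ideal.span {c * a}) := le_inf le_sup_left le_sup_left
    have hlt := lt_of_le_of_ne hle (Ne.symm hinf)
    obtain ⟨x, hx, hxI⟩ := SetLike.exists_of_lt hlt
    obtain ⟨hx1, hx2⟩ := hx
    obtain ⟨i1, hi1, z1, hz1, e1⟩ := Submodule.mem_sup.mp hx1
    obtain ⟨i2, hi2, z2, hz2, e2⟩ := Submodule.mem_sup.mp hx2
    obtain ⟨α, rfl⟩ := Ideal.mem_span_singleton'.mp hz1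
    obtain ⟨β, rfl⟩ := Ideal.mem_span_singleton'.mp hz2
    have hα : IsUnit α := by
      apply irr_unit
      intro hm
      apply hxI
      rw [← e1]
      refine I.add_mem hi1 ?_
      rw [mul_comm]
      exact hwm α hm
    obtain ⟨u, rfl⟩ := hα
    refine ⟨((u⁻¹ : Rˣ) : R) * (β * c), ?_⟩
    have e3 : ((u⁻¹ : Rˣ) : R) * (β * c) * a - w = ((u⁻¹ : Rˣ) : R) * (i1 - i2) := by
      have h4 : ((u⁻¹ : Rˣ) : R) * (u : R) = 1 := Units.inv_mul u
      have h5 : β * (c * a) = i1 + (u : R) * w - i2 := by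
        rw [e1, ← e2]; ring
      calc ((u⁻¹ : Rˣ) : R) * (β * c) * a - w = ((u⁻¹ : Rˣ) : R) * (β * (c * a)) - w := by ring
        _ = ((u⁻¹ : Rˣ) : R) * (i1 + (u : R) * w - i2) - w := by rw [h5]
        _ = ((u⁻¹ : Rˣ) : R) * (i1 - i2) + (((u⁻¹ : Rˣ) : R) * (u : R) - 1) * w := by ring
        _ = ((u⁻¹ : Rˣ) : R) * (i1 - i2) := by rw [h4]; ring
    rw [e3]
    exact I.mul_mem_left _ (I.sub_mem hi1 hi2)
  refine ⟨w, hpair, ?_⟩
  apply le_antisymm
  · intro x hx
    by_cases hxI : x ∈ I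
    · exact Ideal.mem_sup_left hxI
    · obtain ⟨b, hb⟩ := hpair.soc x hxI
      have hbu : IsUnit b := by
        apply irr_unit
        intro hm
        apply hw
        have h6 : x * b ∈ I := (hJ x).mp hx b hm
        have h7 : w = x * b - (b * x - w) := by ring
        rw [h7]
        exact I.sub_mem h6 hb
      obtain ⟨u, rfl⟩ := hbu
      have h8 : x = ((u⁻¹ : Rˣ) : R) * ((u : R) * x - w) + ((u⁻¹ : Rˣ) : R) * w := by
        have h4 : ((u⁻¹ : Rˣ) : R) * (u : R) = 1 := Units.inv_mul u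
        calc x = (((u⁻¹ : Rˣ) : R) * (u : R)) * x := by rw [h4, one_mul]
          _ = _ := by ring
      rw [h8]
      exact Submodule.add_mem_sup (I.mul_mem_left _ hb)
        (Ideal.mem_span_singleton'.mpr ⟨_, rfl⟩)
  · refine sup_le ?_ ?_
    · intro x hx
      rw [hJ]
      intro y _
      exact I.mul_mem_right y hx
    · rw [Ideal.span_singleton_le_iff_mem, hJ]
      exact hwm

theorem irreducible_of_pair {R : Type*} [CommRing R] [IsLocalRing R] (I : Ideal R) (w : R)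
    (h : SA.Pair R I w) : I ≠ ⊤ ∧ (∀ A B : Ideal R, A ⊓ B = I → A = I ∨ B = I) := by
  refine ⟨fun ht => h.nmem (by rw [ht]; exact Submodule.mem_top), fun A B hAB => ?_⟩
  by_contra hcon
  push Not at hcon
  obtain ⟨hA, hB⟩ := hcon
  have hIA : I ≤ A := hAB ▸ inf_le_left
  have hIB : I ≤ B := hAB ▸ inf_le_right
  have key : ∀ C : Ideal R, I ≤ C → C ≠ I → w ∈ C := by
    intro C hIC hC
    obtain ⟨x, hx, hxI⟩ := SetLike.exists_of_lt (lt_of_le_of_ne hIC (Ne.symm hC))
    obtain ⟨b, hb⟩ := h.soc x hxI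
    have e : w = b * x - (b * x - w) := by ring
    rw [e]
    exact C.sub_mem (C.mul_mem_left b hx) (hIC hb)
  apply h.nmem
  rw [← hAB]
  exact ⟨key A hIA hA, key B hIB hB⟩

end Pool.Agent.FSig.GR
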