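import Pool.Agent.Work.MP_27623f_ag.GR.Comp

/-!
MODULE Start (size M).  A map `R^{1/q} → R / I` with `I ≤ m^(T+1)` gives a partial homomorphism of `S`.

PROOF.  `π` from `exists_comp`.  For `m ≤ T` the map `π m` vanishes on `I ≤ m^(T+1) ≤ m^(m+1)`, so it factors through
`π' m : R ⧸ I →+ S` (`QuotientAddGroup.lift`, or `Submodule.Quotient` lifts).  Put
`g_j(x) = ∑_{m ≤ T} π' m (φ (toRoot p e (algebraMap S R (proj (j + q m) x))))`, `q = p ^ e`: an additive map.
For `x ∈ 𝒜 n`: `g_j(x) = π' m (φ x)` if `n = j + q m` with `m ≤ T`, and `0` otherwise.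
`Part`: `s ∈ 𝒜 i`, `x ∈ 𝒜 n`, `n + q i ≤ j + q T`; `φ (s^q x) = s • φ x` (linearity, `root_smul_def`).  If `n + q i = j + q m` with
`m ≤ T`: for `m ≥ i` it is `π' m (s • φ x) = s π' (m - i) (φ x)` and `n = j + q (m - i)`; for `m < i` both sides are `0`
(`n < j`).  If there is no such `m`: then `n ≠ j + q m'` for all `m'` with `m' ≤ T`, or `n + q i = j + q (m' + i)` with
`m' + i > T`, which is excluded by `n + q i ≤ j + q T`; so both sides are `0`.
`g_j(x) ∈ irr` for `x ∈ 𝒜 n`, `n ≠ j`: it is `0` or in `𝒜 m` with `m ≥ 1`.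
Choice of `j`: `φ (toRoot (algebraMap s))` is the class of some `r ∉ m` (hypothesis `hs`), `π 0 r ≠ 0`, i.e.
`∑_n π' 0 (φ (proj n s)) ≠ 0` (`s = ∑_n proj n s`), so `π' 0 (φ (proj j s)) ≠ 0` for some `j`; it is `g_j (proj j s)`, an element
of `𝒜 0`, nonzero, hence not in `irr 𝒜` (`mem_irr`, `proj 0 x = x` for `x ∈ 𝒜 0`).
-/

set_option autoImplicit false

namespace Pool.Agent.FSig.GR

private theorem exists_lift {R S : Type*} [CommRing R] [CommRing S] (I : Ideal R) (f : R →+ S)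
    (h : ∀ r ∈ I, f r = 0) : ∃ g : R ⧸ I →+ S, ∀ r, g (Ideal.Quotient.mk I r) = f r := by
  have key : ∀ r z, Ideal.Quotient.mk I r = Ideal.Quotient.mk I z → f r = f z := by
    intro r z hrz
    have h1 := h _ (Ideal.Quotient.eq.1 hrz)
    rw [map_sub, sub_eq_zero] at h1
    exact h1
  have hc : ∀ z : R ⧸ I, Ideal.Quotient.mk I
      (Classical.choose (Ideal.Quotient.mk_surjective (I := I) z)) = z := fun z =>
    Classical.choose_spec (Ideal.Quotient.mk_surjective (I := I) z)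
  refine ⟨{ toFun := fun z => f (Classical.choose (Ideal.Quotient.mk_surjective (I := I) z))
            map_zero' := ?_
            map_add' := ?_ }, ?_⟩
  · rw [key _ 0 (by rw [hc, map_zero]), map_zero]
  · intro a b
    rw [← map_add]
    apply key
    rw [hc, map_add, hc, hc]
  · intro r
    exact key _ _ (hc _)

private theorem proj_same {k S : Type*} [Field k] [CommRing S] [Algebra k S]
    (𝒜 : ℕ → Submodule k S) [GradedAlgebra 𝒜] {n : ℕ} {x : S} (hx : x ∈ 𝒜 n) :
    GradedRing.proj 𝒜 n x = x := by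
  rw [GradedRing.proj_apply]
  exact DirectSum.decompose_of_mem_same 𝒜 hx

private theorem proj_ne {k S : Type*} [Field k] [CommRing S] [Algebra k S]
    (𝒜 : ℕ → Submodule k S) [GradedAlgebra 𝒜] {n m : ℕ} {x : S} (hx : x ∈ 𝒜 n) (h : n ≠ m) :
    GradedRing.proj 𝒜 m x = 0 := by
  rw [GradedRing.proj_apply]
  exact DirectSum.decompose_of_mem_ne 𝒜 hx h

theorem start {k S : Type*} [Field k] [CommRing S] [Algebra k S] (𝒜 : ℕ → Submodule k S)
    [GradedAlgebra 𝒜] {R : Type*} [CommRing R] [IsLocalRing R] [Algebra S R]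
    (hR : LocalModel 𝒜 R) (p e : ℕ) [Fact p.Prime] [CharP R p] (T : ℕ) (I : Ideal R)
    (hI : I ≤ IsLocalRing.maximalIdeal R ^ (T + 1)) (φ : RootMod R p e →ₗ[R] R ⧸ I) (s : S) (r : R)
    (hr : r ∉ IsLocalRing.maximalIdeal R)
    (hs : φ (toRoot p e (algebraMap S R s)) = Ideal.Quotient.mk I r) :
    ∃ (j : ℕ) (f : S →+ S), Part 𝒜 (p ^ e) (j + p ^ e * T) f ∧
      (∀ n, n ≠ j → ∀ x ∈ 𝒜 n, f x ∈ irr 𝒜) ∧ f (GradedRing.proj 𝒜 j s) ∉ irr 𝒜 := by
  classical
  obtain ⟨π, h1, h2, h3, h4, h5, h6⟩ := exists_comp 𝒜 hR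
  have hq : 0 < p ^ e := pow_pos (Nat.Prime.pos Fact.out) e
  -- the maps on the quotient
  have hψ : ∀ m, ∃ g : R ⧸ I →+ S, m ≤ T → ∀ r, g (Ideal.Quotient.mk I r) = π m r := by
    intro m
    by_cases hm : m ≤ T
    · obtain ⟨g, hg⟩ := exists_lift I (π m) (fun r hr => h3 m r
        (Ideal.pow_le_pow_right (by omega) (hI hr)))
      exact ⟨g, fun _ => hg⟩
    · exact ⟨0, fun h => absurd h hm⟩
  choose ψ hψ using hψ
  have hΦadd : ∀ x y : S, φ (toRoot p e (algebraMap S R (x + y))) =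
      φ (toRoot p e (algebraMap S R x)) + φ (toRoot p e (algebraMap S R y)) := by
    intro x y
    rw [← map_add φ, map_add]
    rfl
  have hΦ0 : φ (toRoot p e (algebraMap S R 0)) = 0 := by
    rw [map_zero]
    exact map_zero φ
  have hΦmul : ∀ a x : S, φ (toRoot p e (algebraMap S R (a ^ p ^ e * x))) =
      algebraMap S R a • φ (toRoot p e (algebraMap S R x)) := by
    intro a x
    rw [← map_smul, map_mul, map_pow]
    rfl
  let G : ℕ → (S →+ S) := fun j =>
    { toFun := fun x => ∑ m ∈ Finset.range (T + 1),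
        ψ m (φ (toRoot p e (algebraMap S R (GradedRing.proj 𝒜 (j + p ^ e * m) x))))
      map_zero' := by
        refine Finset.sum_eq_zero fun m _ => ?_
        rw [map_zero, hΦ0, map_zero]
      map_add' := by
        intro x y
        rw [← Finset.sum_add_distrib]
        refine Finset.sum_congr rfl fun m _ => ?_
        rw [map_add, hΦadd, map_add] }
  have hG : ∀ j x, G j x = ∑ m ∈ Finset.range (T + 1),
      ψ m (φ (toRoot p e (algebraMap S R (GradedRing.proj 𝒜 (j + p ^ e * m) x)))) :=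
    fun _ _ => rfl
  have val1 : ∀ j m, m ≤ T → ∀ x ∈ 𝒜 (j + p ^ e * m),
      G j x = ψ m (φ (toRoot p e (algebraMap S R x))) := by
    intro j m hm x hx
    rw [hG, Finset.sum_eq_single m]
    · rw [proj_same 𝒜 hx]
    · intro m' _ hm'
      rw [proj_ne 𝒜 hx (fun hh => hm' (Nat.eq_of_mul_eq_mul_left hq (by omega))), hΦ0, map_zero]
    · intro hh
      exact absurd (Finset.mem_range.2 (by omega)) hh
  have val0 : ∀ j n, (∀ m ≤ T, n ≠ j + p ^ e * m) → ∀ x ∈ 𝒜 n, G j x = 0 := by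
    intro j n hn x hx
    rw [hG]
    refine Finset.sum_eq_zero fun m hm => ?_
    rw [proj_ne 𝒜 hx (hn m (by rw [Finset.mem_range] at hm; omega)), hΦ0, map_zero]
  have hPart : ∀ j, Part 𝒜 (p ^ e) (j + p ^ e * T) (G j) := by
    intro j i n a x ha hx hD
    have hax : a ^ p ^ e * x ∈ 𝒜 (n + p ^ e * i) := by
      have h7 : a ^ p ^ e ∈ 𝒜 (p ^ e • i) := SetLike.pow_mem_graded (p ^ e) ha
      have h8 := SetLike.mul_mem_graded h7 hx
      rw [smul_eq_mul, add_comm] at h8
      exact h8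
    obtain ⟨r', hr'⟩ := Ideal.Quotient.mk_surjective (φ (toRoot p e (algebraMap S R x)))
    have hval : φ (toRoot p e (algebraMap S R (a ^ p ^ e * x))) =
        Ideal.Quotient.mk I (algebraMap S R a * r') := by
      rw [hΦmul, ← hr', map_mul]
      rfl
    by_cases hA : ∃ m ≤ T, n + p ^ e * i = j + p ^ e * m
    · obtain ⟨m, hm, hnm⟩ := hA
      rw [hnm] at hax
      rw [val1 j m hm _ hax, hval, hψ m hm]
      by_cases him : i ≤ m
      · obtain ⟨l, rfl⟩ := Nat.exists_eq_add_of_le him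
        have hn : n = j + p ^ e * l := by
          rw [mul_add] at hnm
          omega
        rw [h4 i l a ha r']
        rw [hn] at hx
        rw [val1 j l (by omega) _ hx, ← hr', hψ l (by omega)]
      · have hlt : p ^ e * m < p ^ e * i := Nat.mul_lt_mul_of_pos_left (by omega) hq
        rw [h5 i m (by omega) a ha r', val0 j n (fun m' _ hh => by omega) x hx, mul_zero]
    · rw [val0 j _ (fun m hm hh => hA ⟨m, hm, hh⟩) _ hax, val0 j n ?_ x hx, mul_zero]
      intro m' hm' hh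
      have h9 : n + p ^ e * i = j + p ^ e * (m' + i) := by
        rw [hh, mul_add]
        omega
      refine hA ⟨m' + i, ?_, h9⟩
      rw [h9] at hD
      exact Nat.le_of_mul_le_mul_left (by omega) hq
  have hirr : ∀ j n, n ≠ j → ∀ x ∈ 𝒜 n, G j x ∈ irr 𝒜 := by
    intro j n hn x hx
    by_cases hA : ∃ m ≤ T, n = j + p ^ e * m
    · obtain ⟨m, hm, hnm⟩ := hA
      rw [hnm] at hx
      obtain ⟨r', hr'⟩ := Ideal.Quotient.mk_surjective (φ (toRoot p e (algebraMap S R x)))
      rw [val1 j m hm x hx, ← hr', hψ m hm, mem_irr]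
      refine proj_ne 𝒜 (h2 m r') ?_
      rintro rfl
      apply hn
      rw [hnm, mul_zero, add_zero]
    · rw [val0 j n (fun m hm hh => hA ⟨m, hm, hh⟩) x hx]
      exact Ideal.zero_mem _
  -- the choice of `j`
  have hex : ∃ j, ψ 0 (φ (toRoot p e (algebraMap S R (GradedRing.proj 𝒜 j s)))) ≠ 0 := by
    by_contra hcon
    push Not at hcon
    let F : S →+ S :=
      { toFun := fun x => ψ 0 (φ (toRoot p e (algebraMap S R x)))
        map_zero' := by rw [hΦ0, map_zero]
        map_add' := by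
          intro x y
          rw [hΦadd, map_add] }
    have hF : F s = 0 := by
      rw [← DirectSum.sum_support_decompose 𝒜 s, map_sum]
      exact Finset.sum_eq_zero fun n _ => hcon n
    have hF' : F s = π 0 r := by
      change ψ 0 (φ (toRoot p e (algebraMap S R s))) = π 0 r
      rw [hs, hψ 0 (Nat.zero_le _)]
    exact h6 r hr (hF'.symm.trans hF)
  obtain ⟨j, hj⟩ := hex
  refine ⟨j, G j, hPart j, hirr j, ?_⟩
  have hp : GradedRing.proj 𝒜 j s ∈ 𝒜 (j + p ^ e * 0) := by
    rw [mul_zero, add_zero, GradedRing.proj_apply]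
    exact SetLike.coe_mem _
  obtain ⟨r', hr'⟩ := Ideal.Quotient.mk_surjective
    (φ (toRoot p e (algebraMap S R (GradedRing.proj 𝒜 j s))))
  rw [← hr', hψ 0 (Nat.zero_le _)] at hj
  rw [val1 j 0 (Nat.zero_le _) _ hp, ← hr', hψ 0 (Nat.zero_le _), mem_irr,
    proj_same 𝒜 (h2 0 r')]
  exact hj

end Pool.Agent.FSig.GR
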