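import Pool.Agent.Work.MP_27623f_ag.GR.Lift
import Pool.Agent.Work.MP_27623f_ag.GR.Start
import Pool.Agent.Work.MP_27623f_ag.GR.Back
import Pool.Agent.Work.MP_27623f_ag.GR.Irr
import Pool.Agent.Work.MP_27623f_ag.SA.Cof
import Pool.Agent.Work.MP_27623f_ag.SA.Depth
import Pool.Agent.Work.MP_27623f_ag.Criterion

/-!
MODULE Fin (helper96).  Assembly: every sufficiently deep irreducible ideal of the local model satisfies the hypothesis of
`criterion`.
-/

set_option autoImplicit false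

namespace Pool.Agent.FSig.GR

open Pool.Agent.FSig.SA

universe u

private theorem phi_not_mem {k S : Type*} [Field k] [CommRing S] [Algebra k S]
    (𝒜 : ℕ → Submodule k S) [GradedAlgebra 𝒜] (j : ℕ) (s : S) (Φ : S →+ S)
    (h1 : Φ (GradedRing.proj 𝒜 j s) ∉ irr 𝒜) (h2 : ∀ n, n ≠ j → ∀ x ∈ 𝒜 n, Φ x ∈ irr 𝒜) :
    Φ s ∉ irr 𝒜 := by
  classical
  intro h
  apply h1
  have h3 := DirectSum.sum_support_decompose 𝒜 s
  by_cases hj : j ∈ (DirectSum.decompose 𝒜 s).support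
  · rw [← h3, ← Finset.add_sum_erase _ _ hj, map_add, map_sum] at h
    have h4 : ∑ i ∈ (DirectSum.decompose 𝒜 s).support.erase j,
        Φ (DirectSum.decompose 𝒜 s i : S) ∈ irr 𝒜 := by
      refine Ideal.sum_mem _ fun i hi => ?_
      exact h2 i (Finset.ne_of_mem_erase hi) _ (SetLike.coe_mem _)
    exact (Ideal.add_mem_iff_left _ h4).1 h
  · have h5 : GradedRing.proj 𝒜 j s = 0 := by
      rw [GradedRing.proj_apply]
      have : DirectSum.decompose 𝒜 s j = 0 := by simpa using hj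
      rw [this]
      rfl
    rw [h5, map_zero]
    exact Ideal.zero_mem _

theorem stab {k S : Type*} [Field k] [CommRing S] [Algebra k S] (𝒜 : ℕ → Submodule k S)
    [GradedAlgebra 𝒜] [Algebra.FiniteType k S] (h0 : ∀ s ∈ 𝒜 0, ∃ c : k, algebraMap k S c = s)
    {R : Type u} [CommRing R] [IsNoetherianRing R]
    [IsLocalRing R] [Algebra S R] (hR : LocalModel 𝒜 R) (p : ℕ) [Fact p.Prime] [CharP R p] :
    ∃ T : ℕ, ∀ (I₀ : Ideal R) (w₀ : R), Pair R I₀ w₀ → I₀ ≤ IsLocalRing.maximalIdeal R ^ T →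
      ∀ (I : Ideal R) (w : R), Pair R I w → ∀ (e : ℕ) (r : R),
        r * w ^ p ^ e ∈ frobPow I (p ^ e) → r * w₀ ^ p ^ e ∈ frobPow I₀ (p ^ e) := by
  classical
  have : CharP k p := RingHom.charP ((algebraMap S R).comp (algebraMap k S))
    (RingHom.injective _) p
  have : IsNoetherianRing S := Algebra.FiniteType.isNoetherianRing k S
  obtain ⟨B, hB⟩ := exists_bound 𝒜 h0 p
  refine ⟨B + 1, fun I₀ w₀ hP₀ hI₀ I w hP e r hr => ?_⟩
  by_contra hcon
  obtain ⟨φ, hφ⟩ := exists_map_quot I₀ w₀ hP₀.prim hP₀.nmem hP₀.soc (toRoot p e r) (by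
    rw [smul_mem_iff]
    exact hcon)
  obtain ⟨M₁, hM₁⟩ := exists_pow_le_frobPow (p ^ e) hP.prim
  obtain ⟨M₂, hM₂⟩ := exists_pow_le_frobPow (R := R) (I := IsLocalRing.maximalIdeal R) (p ^ e)
    ⟨1, (pow_one _).le⟩
  obtain ⟨s, hs⟩ := hR.surj (max M₁ M₂) r
  have hs1 : r - algebraMap S R s ∈ frobPow I (p ^ e) :=
    hM₁ (Ideal.pow_le_pow_right (le_max_left _ _) hs)
  have hs2 : r - algebraMap S R s ∈ frobPow (IsLocalRing.maximalIdeal R) (p ^ e) :=
    hM₂ (Ideal.pow_le_pow_right (le_max_right _ _) hs)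
  have h3 : toRoot p e (r - algebraMap S R s) ∈
      (IsLocalRing.maximalIdeal R • (⊤ : Submodule R (RootMod R p e))) := by
    have := (smul_mem_iff p e (IsLocalRing.maximalIdeal R) 1 (r - algebraMap S R s)).2 (by
      rw [one_pow, mul_one]
      exact hs2)
    rwa [one_smul] at this
  have h4 : ∃ t ∈ IsLocalRing.maximalIdeal R,
      φ (toRoot p e (r - algebraMap S R s)) = Ideal.Quotient.mk I₀ t := by
    refine Submodule.smul_induction_on h3 ?_ ?_
    · intro a ha z _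
      obtain ⟨z', hz'⟩ := Ideal.Quotient.mk_surjective (φ z)
      refine ⟨a * z', Ideal.mul_mem_right _ _ ha, ?_⟩
      rw [map_smul, ← hz', map_mul]
      rfl
    · rintro x y ⟨t, ht, hx⟩ ⟨t', ht', hy⟩
      exact ⟨t + t', Ideal.add_mem _ ht ht', by rw [map_add, map_add, hx, hy]⟩
  obtain ⟨t, ht, hφt⟩ := h4
  have h5 : φ (toRoot p e (algebraMap S R s)) = Ideal.Quotient.mk I₀ (1 - t) := by
    have h6 : toRoot p e (r - algebraMap S R s) = toRoot p e r - toRoot p e (algebraMap S R s) :=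
      rfl
    rw [h6, map_sub, hφ] at hφt
    rw [map_sub, map_one, ← hφt, sub_sub_cancel]
  have h6 : (1 - t) ∉ IsLocalRing.maximalIdeal R := by
    intro h
    have := Ideal.add_mem _ h ht
    rw [sub_add_cancel] at this
    exact (Ideal.ne_top_iff_one _).1 (IsLocalRing.maximalIdeal.isMaximal R).ne_top this
  obtain ⟨j, f, hf1, hf2, hf3⟩ := start 𝒜 hR p e B I₀ hI₀ φ s (1 - t) h6 h5
  obtain ⟨Φ, hΦ1, hΦ2, hΦ3⟩ := hB e (j + p ^ e * B) j f (Nat.le_add_left _ _) hf1 hf2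
  have h7 : Φ s ∉ irr 𝒜 := by
    refine phi_not_mem 𝒜 j s Φ ?_ hΦ3
    rw [hΦ2 j (Nat.le_add_right _ _) _ (by
      rw [GradedRing.proj_apply]
      exact SetLike.coe_mem _)]
    exact hf3
  have h8 := back 𝒜 hR p e I hP.prim Φ hΦ1 r w s hs1 hr
  have h9 : IsUnit (algebraMap S R (Φ s)) := by
    by_contra hu
    have h10 : algebraMap S R (Φ s) ∈ IsLocalRing.maximalIdeal R ^ 1 := by
      rw [pow_one]
      exact (IsLocalRing.mem_maximalIdeal _).2 hu
    have := hR.inj 1 _ h10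
    rw [pow_one] at this
    exact h7 this
  exact hP.nmem ((Ideal.unit_mul_mem_iff_mem _ h9).1 h8)

theorem deep_pair {k S : Type*} [Field k] [CommRing S] [Algebra k S] (𝒜 : ℕ → Submodule k S)
    [GradedAlgebra 𝒜] [Algebra.FiniteType k S] (h0 : ∀ s ∈ 𝒜 0, ∃ c : k, algebraMap k S c = s)
    {R : Type u} [CommRing R] [IsDomain R] [IsIntegrallyClosed R] [IsNoetherianRing R]
    [IsLocalRing R] [Algebra S R] (hR : LocalModel 𝒜 R) (p : ℕ) [Fact p.Prime] [CharP R p]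
    (hF : (frobenius R p).Finite) (hd : 2 ≤ ringKrullDim R) :
    ∃ T : ℕ, ∀ (I : Ideal R) (w : R), Pair R I w → I ≤ IsLocalRing.maximalIdeal R ^ T →
      ∀ e : ℕ, rootDegree (IsLocalRing.ResidueField R) (p ^ e) * colen (frobPow I (p ^ e)) =
        rootDegree (IsLocalRing.ResidueField R) (p ^ e) *
          colen (frobPow (I ⊔ Ideal.span {w}) (p ^ e)) + freeRank R (RootMod R p e) := by
  classical
  have hreg' : ∀ M : ℕ, ∃ a ∈ IsLocalRing.maximalIdeal R ^ M,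
      ∃ b ∈ IsLocalRing.maximalIdeal R ^ M,
      (∀ x, a * x = 0 → x = 0) ∧ ∀ x, b * x ∈ Ideal.span {a} → x ∈ Ideal.span {a} := by
    intro M
    obtain ⟨a, ha, b, hb, h1, h2⟩ := exists_reg (R := R) hd M
    exact ⟨a, ha, b, hb, fun x hx => (mul_eq_zero.1 hx).resolve_left h1, h2⟩
  obtain ⟨T, hT⟩ := stab 𝒜 h0 hR p
  refine ⟨T, fun I w hP hI e => ?_⟩
  let ι := {x : Ideal R × R // Pair R x.1 x.2}
  have hcof : ∀ n, ∃ t : ι, t.1.1 ≤ IsLocalRing.maximalIdeal R ^ n := by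
    intro n
    obtain ⟨I', h', h1, -, h2⟩ := cofinal_pair hreg' hP n
    exact ⟨⟨(I', h' * w), h1⟩, h2⟩
  exact criterion p hF (fun t : ι => t.1.1) (fun t : ι => t.1.2) (fun t => t.2.prim)
      (fun t => t.2.nmem) (fun t => t.2.soc) hcof ⟨(I, w), hP⟩ e
      (fun t r hr => hT I w hP hI t.1.1 t.1.2 t.2 e r hr)

/-- Deep irreducible ideals exist. -/
theorem exists_deep_pair {R : Type u} [CommRing R] [IsDomain R] [IsIntegrallyClosed R]
    [IsNoetherianRing R] [IsLocalRing R] (hd : 2 ≤ ringKrullDim R) (T : ℕ) :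
    ∃ (I : Ideal R) (w : R), Pair R I w ∧ I ≤ IsLocalRing.maximalIdeal R ^ T := by
  have hreg' : ∀ M : ℕ, ∃ a ∈ IsLocalRing.maximalIdeal R ^ M,
      ∃ b ∈ IsLocalRing.maximalIdeal R ^ M,
      (∀ x, a * x = 0 → x = 0) ∧ ∀ x, b * x ∈ Ideal.span {a} → x ∈ Ideal.span {a} := by
    intro M
    obtain ⟨a, ha, b, hb, h1, h2⟩ := exists_reg (R := R) hd M
    exact ⟨a, ha, b, hb, fun x hx => (mul_eq_zero.1 hx).resolve_left h1, h2⟩
  obtain ⟨I₁, -, h₁⟩ := exists_pair_of_not_mem (R := R) ⊥ 1 (by simp)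
  obtain ⟨I', h', h1, -, h2⟩ := cofinal_pair hreg' h₁ T
  exact ⟨I', h' * 1, h1, h2⟩

end Pool.Agent.FSig.GR
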