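import Pool.Agent.Work.MP_27623f_ag.GR.Defs

/-!
MODULE Gen (size S-M).  Homogeneous generators of positive degree.

PROOF.  Let `G` be a finite set with `Algebra.adjoin k G = ⊤`.  Take all homogeneous components `proj n g`, `g ∈ G`,
`n ≥ 1` in the support of the decomposition of `g`: a finite family of homogeneous elements of positive degree (number
them by `Fin N`).  `g = proj 0 g + ∑ proj n g` and `proj 0 g` is in `k` by `h0`, so the algebra generated by the family
contains `G`.  Surjectivity of `aeval y`: its range is `Algebra.adjoin k (Set.range y)`.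
-/

set_option autoImplicit false

namespace Pool.Agent.FSig.GR

open MvPolynomial

theorem exists_gens {k S : Type*} [Field k] [CommRing S] [Algebra k S] (𝒜 : ℕ → Submodule k S)
    [GradedAlgebra 𝒜] [Algebra.FiniteType k S] (h0 : ∀ s ∈ 𝒜 0, ∃ c : k, algebraMap k S c = s) :
    ∃ (N : ℕ) (y : Fin N → S) (a : Fin N → ℕ), (∀ i, y i ∈ 𝒜 (a i)) ∧ (∀ i, 1 ≤ a i) ∧
      Function.Surjective (aeval y : MvPolynomial (Fin N) k →ₐ[k] S) := by
  classical
  obtain ⟨G, hG⟩ := Algebra.FiniteType.out (R := k) (A := S)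
  let M : ℕ := ∑ g ∈ G, (DirectSum.decompose 𝒜 g).support.sup id
  have hM : ∀ g ∈ G, ∀ n ∈ (DirectSum.decompose 𝒜 g).support, n ≤ M := by
    intro g hg n hn
    have h1 : n ≤ (DirectSum.decompose 𝒜 g).support.sup id := Finset.le_sup (f := id) hn
    exact h1.trans (Finset.single_le_sum
      (f := fun g => (DirectSum.decompose 𝒜 g).support.sup id) (fun _ _ => Nat.zero_le _) hg)
  let E : Finset (S × ℕ) := G ×ˢ Finset.Icc 1 M
  let φ := E.equivFin
  refine ⟨E.card, fun i => (DirectSum.decompose 𝒜 (φ.symm i).1.1 (φ.symm i).1.2 : S),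
    fun i => (φ.symm i).1.2, fun i => SetLike.coe_mem _, fun i => ?_, ?_⟩
  · have := (φ.symm i).2
    simp only [E, Finset.mem_product, Finset.mem_Icc] at this
    exact this.2.1
  set y : Fin E.card → S := fun i => (DirectSum.decompose 𝒜 (φ.symm i).1.1 (φ.symm i).1.2 : S)
    with hy
  have hrange : (⊤ : Subalgebra k S) ≤ (aeval y : MvPolynomial (Fin E.card) k →ₐ[k] S).range := by
    rw [← hG, Algebra.adjoin_le_iff]
    intro g hg
    have hg' : g ∈ G := hg
    rw [← DirectSum.sum_support_decompose 𝒜 g]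
    refine Subalgebra.sum_mem _ fun n hn => ?_
    rcases Nat.eq_zero_or_pos n with rfl | hn0
    · obtain ⟨c, hc⟩ := h0 _ (SetLike.coe_mem (DirectSum.decompose 𝒜 g 0))
      rw [← hc]
      exact Subalgebra.algebraMap_mem _ c
    · have hE : (g, n) ∈ E := by
        simp only [E, Finset.mem_product, Finset.mem_Icc]
        exact ⟨hg', hn0, hM g hg' n hn⟩
      have h1 : φ.symm (φ ⟨(g, n), hE⟩) = ⟨(g, n), hE⟩ := Equiv.symm_apply_apply _ _
      have h2 : y (φ ⟨(g, n), hE⟩) = (DirectSum.decompose 𝒜 g n : S) := by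
        have h3 : ∀ z : E, z = ⟨(g, n), hE⟩ →
            (DirectSum.decompose 𝒜 z.1.1 z.1.2 : S) = (DirectSum.decompose 𝒜 g n : S) := by
          rintro z rfl
          rfl
        exact h3 _ h1
      rw [← h2]
      exact ⟨X (φ ⟨(g, n), hE⟩), aeval_X _ _⟩
  intro s
  obtain ⟨g, hg⟩ := hrange (Algebra.mem_top (x := s))
  exact ⟨g, hg⟩

end Pool.Agent.FSig.GR
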