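import Pool.Agent.Work.MP_27623f_ag.GR.PsiA

/-!
MODULE PsiH (size S-M).  `Psi g = f (g(y))` for `g` homogeneous of degree `≤ D`; `Psi` kills the relations.

PROOF.  `Psi_hom`: `g` is the sum over its support of `monomial μ c`, every `μ` in the support has weight
`∑ μ_i a_i = n ≤ D`; `f (c y^μ) = f ((y^(μ div q))^q * (c y^(μ mod q))) = y^(μ div q) f (c y^(μ mod q))` by `hf` (degrees:
`∑ a_i (μ_i % q) + q ∑ a_i (μ_i / q) = n ≤ D`).
`Psi_ker`: `g ∈ Ideal.span F`, so `g` is a sum of products `u * h`, `h ∈ F` (`Submodule.span_induction`; additivity of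
`Psi`), and `u = ∑ monomial μ c`; `monomial μ c = monomial (q • (μ div q)) 1 * monomial (μ mod q) c`, so by
`Psi_monomial_mul` it is enough that `Psi (monomial ρ c * h) = 0` for `ρ_i < q`; that polynomial is weighted homogeneous of
degree `∑ a_i ρ_i + d ≤ (q - 1) ∑ a_i + b ≤ D`, so `Psi_hom` gives `f (c y^ρ h(y)) = f 0 = 0`.
-/

set_option autoImplicit false

namespace Pool.Agent.FSig.GR

open MvPolynomial

variable {k S : Type*} [Field k] [CommRing S] [Algebra k S]

private theorem ph_prod (𝒜 : ℕ → Submodule k S) [GradedAlgebra 𝒜] {N : ℕ}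
    {y : Fin N → S} {a : Fin N → ℕ} (hy : ∀ i, y i ∈ 𝒜 (a i)) (μ : Fin N → ℕ) :
    ∏ i, y i ^ μ i ∈ 𝒜 (∑ i, μ i * a i) := by
  apply SetLike.prod_mem_graded (A := 𝒜) (i := fun i => μ i * a i) (g := fun i => y i ^ μ i)
  intro i _
  have h := SetLike.pow_mem_graded (A := 𝒜) (μ i) (hy i)
  rwa [smul_eq_mul] at h

private theorem ph_scal (𝒜 : ℕ → Submodule k S) [GradedAlgebra 𝒜] {N : ℕ}
    {y : Fin N → S} {a : Fin N → ℕ} (hy : ∀ i, y i ∈ 𝒜 (a i)) (μ : Fin N → ℕ) (c : k) :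
    algebraMap k S c * ∏ i, y i ^ μ i ∈ 𝒜 (∑ i, μ i * a i) := by
  rw [← Algebra.smul_def]
  exact (𝒜 _).smul_mem c (ph_prod 𝒜 hy μ)

private theorem ph_weight {N : ℕ} (a : Fin N → ℕ) (μ : Fin N →₀ ℕ) :
    Finsupp.weight a μ = ∑ i, μ i * a i := by
  rw [Finsupp.weight_apply, Finsupp.sum_fintype]
  · rfl
  · intro i
    exact zero_smul _ _

theorem Psi_hom (𝒜 : ℕ → Submodule k S) [GradedAlgebra 𝒜] {q D : ℕ} {N : ℕ}
    {y : Fin N → S} {a : Fin N → ℕ} (hy : ∀ i, y i ∈ 𝒜 (a i)) {f : S →+ S} (hf : Part 𝒜 q D f)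
    {g : MvPolynomial (Fin N) k} {n : ℕ} (hg : IsWeightedHomogeneous a g n) (hn : n ≤ D) :
    Psi q y f g = f (aeval y g) := by
  unfold Psi
  rw [aeval_def, eval₂_eq', map_sum]
  refine Finset.sum_congr rfl fun μ hμ => ?_
  have hw : ∑ i, μ i * a i = n := by
    rw [← ph_weight]
    exact hg (MvPolynomial.mem_support_iff.1 hμ)
  have hdeg : ∑ i, (μ i % q) * a i + q * ∑ i, (μ i / q) * a i = ∑ i, μ i * a i := by
    rw [Finset.mul_sum, ← Finset.sum_add_distrib]
    refine Finset.sum_congr rfl fun i _ => ?_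
    rw [← mul_assoc, ← add_mul, Nat.mod_add_div]
  have h1 := hf _ _ _ _ (ph_prod 𝒜 hy (fun i => μ i / q))
    (ph_scal 𝒜 hy (fun i => μ i % q) (coeff μ g)) (by rw [hdeg, hw]; exact hn)
  rw [← h1]
  congr 1
  rw [← Finset.prod_pow, mul_left_comm, ← Finset.prod_mul_distrib]
  congr 1
  refine Finset.prod_congr rfl fun i _ => ?_
  rw [← pow_mul, ← pow_add]
  congr 1
  rw [mul_comm, Nat.div_add_mod]

theorem Psi_ker (𝒜 : ℕ → Submodule k S) [GradedAlgebra 𝒜] {q D : ℕ} (hq : 0 < q) {N : ℕ}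
    {y : Fin N → S} {a : Fin N → ℕ} (hy : ∀ i, y i ∈ 𝒜 (a i)) {f : S →+ S} (hf : Part 𝒜 q D f)
    {b : ℕ} {F : Set (MvPolynomial (Fin N) k)}
    (hF : ∀ g ∈ F, ∃ d, d ≤ b ∧ IsWeightedHomogeneous a g d) (hF0 : ∀ g ∈ F, aeval y g = 0)
    (hD : (q - 1) * ∑ i, a i + b ≤ D) {g : MvPolynomial (Fin N) k} (hg : g ∈ Ideal.span F) :
    Psi q y f g = 0 := by
  have key : ∀ u : MvPolynomial (Fin N) k, Psi q y f (u * g) = 0 := by
    refine Submodule.span_induction (p := fun g _ => ∀ u : MvPolynomial (Fin N) k,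
      Psi q y f (u * g) = 0) ?_ ?_ ?_ ?_ hg
    · intro h hh u
      obtain ⟨d, hdb, hd⟩ := hF h hh
      induction u using MvPolynomial.induction_on' with
      | monomial μ c =>
        obtain ⟨β, hβ⟩ : ∃ β : Fin N →₀ ℕ, ∀ i, β i = μ i / q :=
          ⟨Finsupp.equivFunOnFinite.symm fun i => μ i / q, fun i => rfl⟩
        obtain ⟨ρ, hρ⟩ : ∃ ρ : Fin N →₀ ℕ, ∀ i, ρ i = μ i % q :=
          ⟨Finsupp.equivFunOnFinite.symm fun i => μ i % q, fun i => rfl⟩
        have hμ : μ = q • β + ρ := by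
          ext i
          rw [Finsupp.add_apply, Finsupp.smul_apply, smul_eq_mul, hβ, hρ, Nat.div_add_mod]
        have hmon : (monomial μ c : MvPolynomial (Fin N) k) =
            monomial (q • β) 1 * monomial ρ c := by
          rw [monomial_mul, one_mul, ← hμ]
        have hhom : IsWeightedHomogeneous a (monomial ρ c * h) (∑ i, ρ i * a i + d) :=
          (isWeightedHomogeneous_monomial a ρ c (ph_weight a ρ)).mul hd
        have hle : ∑ i, ρ i * a i + d ≤ D := by
          refine le_trans ?_ hD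
          refine add_le_add ?_ hdb
          rw [Finset.mul_sum]
          refine Finset.sum_le_sum fun i _ => Nat.mul_le_mul_right _ ?_
          rw [hρ]
          exact Nat.le_sub_one_of_lt (Nat.mod_lt _ hq)
        rw [hmon, mul_assoc, Psi_monomial_mul hq, Psi_hom 𝒜 hy hf hhom hle, map_mul,
          hF0 h hh, mul_zero, map_zero, mul_zero]
      | add u v hu hv => rw [add_mul, Psi_add, hu, hv, add_zero]
    · intro u
      rw [mul_zero, Psi_zero]
    · intro g h _ _ hg hh u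
      rw [mul_add, Psi_add, hg, hh, add_zero]
    · intro r g _ hg u
      rw [smul_eq_mul, ← mul_assoc]
      exact hg _
  have h := key 1
  rwa [one_mul] at h

end Pool.Agent.FSig.GR
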