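import Pool.Agent.Work.MP_27623f_ag.GR.Defs

/-!
MODULE Rel (size M).  Homogeneous relations of bounded degree.

PROOF.  The kernel of `aeval y` is finitely generated (Noetherian) by some finite set `G`.  If `aeval y g = 0` then
`aeval y` of every weighted homogeneous component of `g` (weights `a`) is `0`, because `aeval y` maps a weighted homogeneous
polynomial of degree `n` into `𝒜 n` (monomial by monomial) and the components of `0` vanish.  Let `F` be the finite set of
all weighted homogeneous components of the elements of `G` (only finitely many are nonzero), `b` the maximum of the degrees.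
`g = ∑ of its components` shows `G ⊆ Ideal.span F`.
-/

set_option autoImplicit false

namespace Pool.Agent.FSig.GR

open MvPolynomial

private theorem prod_mem_aux {k S : Type*} [Field k] [CommRing S] [Algebra k S] (𝒜 : ℕ → Submodule k S)
    [GradedAlgebra 𝒜] {N : ℕ} {y : Fin N → S} {a : Fin N → ℕ} (hy : ∀ i, y i ∈ 𝒜 (a i))
    (d : Fin N →₀ ℕ) : (∏ i, y i ^ d i) ∈ 𝒜 (∑ i, d i * a i) := by
  classical
  refine SetLike.prod_mem_graded (A := 𝒜) (fun i => d i * a i) (fun i => y i ^ d i) fun i _ => ?_
  have := SetLike.pow_mem_graded (A := 𝒜) (d i) (hy i)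
  simpa using this

theorem aeval_mem {k S : Type*} [Field k] [CommRing S] [Algebra k S] (𝒜 : ℕ → Submodule k S)
    [GradedAlgebra 𝒜] {N : ℕ} {y : Fin N → S} {a : Fin N → ℕ} (hy : ∀ i, y i ∈ 𝒜 (a i))
    {g : MvPolynomial (Fin N) k} {n : ℕ} (hg : IsWeightedHomogeneous a g n) : aeval y g ∈ 𝒜 n := by
  classical
  rw [aeval_def, eval₂_eq']
  refine Submodule.sum_mem _ fun d hd => ?_
  rw [← Algebra.smul_def]
  refine Submodule.smul_mem _ _ ?_
  have h := hg (mem_support_iff.mp hd)
  have h2 := prod_mem_aux 𝒜 hy d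
  rw [Finsupp.weight_apply, Finsupp.sum_fintype _ _ (fun i => by simp)] at h
  simp only [smul_eq_mul] at h
  rw [h] at h2
  exact h2

private theorem comp_zero {k S : Type*} [Field k] [CommRing S] [Algebra k S] (𝒜 : ℕ → Submodule k S)
    [GradedAlgebra 𝒜] {N : ℕ} {y : Fin N → S} {a : Fin N → ℕ} (hy : ∀ i, y i ∈ 𝒜 (a i))
    {g : MvPolynomial (Fin N) k} (hg : aeval y g = 0) (n : ℕ) :
    aeval y (weightedHomogeneousComponent a n g) = 0 := by
  classical
  -- the sum over the finite support of the components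
  have hfin : (Function.support fun m => weightedHomogeneousComponent a m g).Finite :=
    weightedHomogeneousComponent_finsupp g
  have hsum : ∑ᶠ m, weightedHomogeneousComponent a m g = g :=
    sum_weightedHomogeneousComponent a g
  have h1 : g = ∑ m ∈ hfin.toFinset, weightedHomogeneousComponent a m g := by
    conv_lhs => rw [← hsum]
    exact finsum_eq_sum _ hfin
  by_cases hn : n ∈ hfin.toFinset
  · have h2 : aeval y g = ∑ m ∈ hfin.toFinset, aeval y (weightedHomogeneousComponent a m g) := by
      conv_lhs => rw [h1]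
      rw [map_sum]
    rw [hg] at h2
    have h3 := congrArg (fun s => (DirectSum.decompose 𝒜 s n : S)) h2
    simp only [DirectSum.decompose_zero, DirectSum.zero_apply, ZeroMemClass.coe_zero,
      DirectSum.decompose_sum, DirectSum.sum_apply, AddSubmonoidClass.coe_finsetSum] at h3
    rw [Finset.sum_eq_single_of_mem n hn] at h3
    · rw [DirectSum.decompose_of_mem_same 𝒜
        (aeval_mem 𝒜 hy (weightedHomogeneousComponent_isWeightedHomogeneous (w := a) n g))] at h3
      exact h3.symm
    · intro m _ hmn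
      exact DirectSum.decompose_of_mem_ne 𝒜
        (aeval_mem 𝒜 hy (weightedHomogeneousComponent_isWeightedHomogeneous (w := a) m g)) hmn
  · have : weightedHomogeneousComponent a n g = 0 := by
      by_contra h
      exact hn (hfin.mem_toFinset.mpr h)
    rw [this, map_zero]

theorem exists_rels {k S : Type*} [Field k] [CommRing S] [Algebra k S] (𝒜 : ℕ → Submodule k S)
    [GradedAlgebra 𝒜] {N : ℕ} {y : Fin N → S} {a : Fin N → ℕ} (hy : ∀ i, y i ∈ 𝒜 (a i)) :
    ∃ (b : ℕ) (F : Set (MvPolynomial (Fin N) k)),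
      (∀ g ∈ F, ∃ d, d ≤ b ∧ IsWeightedHomogeneous a g d) ∧ (∀ g ∈ F, aeval y g = 0) ∧
      ∀ g : MvPolynomial (Fin N) k, aeval y g = 0 → g ∈ Ideal.span F := by
  classical
  obtain ⟨G, hG⟩ : (RingHom.ker (aeval y : MvPolynomial (Fin N) k →ₐ[k] S)).FG :=
    IsNoetherian.noetherian _
  have hGmem : ∀ g ∈ G, aeval y g = 0 := by
    intro g hg
    have : g ∈ RingHom.ker (aeval y : MvPolynomial (Fin N) k →ₐ[k] S) := by
      rw [← hG]; exact Ideal.subset_span hg
    exact this
  have hfin : ∀ g : MvPolynomial (Fin N) k,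
      (Function.support fun m => weightedHomogeneousComponent a m g).Finite := fun g =>
    weightedHomogeneousComponent_finsupp g
  refine ⟨∑ g ∈ G, ∑ m ∈ (hfin g).toFinset, m,
    {f | ∃ g ∈ G, ∃ m ∈ (hfin g).toFinset, f = weightedHomogeneousComponent a m g}, ?_, ?_, ?_⟩
  · rintro f ⟨g, hg, m, hm, rfl⟩
    refine ⟨m, ?_, weightedHomogeneousComponent_isWeightedHomogeneous (w := a) m g⟩
    calc m ≤ ∑ m ∈ (hfin g).toFinset, m :=
          Finset.single_le_sum (f := fun m => m) (fun _ _ => Nat.zero_le _) hm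
      _ ≤ _ := Finset.single_le_sum (f := fun g => ∑ m ∈ (hfin g).toFinset, m)
          (fun _ _ => Nat.zero_le _) hg
  · rintro f ⟨g, hg, m, hm, rfl⟩
    exact comp_zero 𝒜 hy (hGmem g hg) m
  · intro g hg
    have hg' : g ∈ Ideal.span (G : Set (MvPolynomial (Fin N) k)) := by
      rw [hG]; exact hg
    refine (Ideal.span_le.mpr ?_) hg'
    intro f hf
    have h1 : f = ∑ m ∈ (hfin f).toFinset, weightedHomogeneousComponent a m f := by
      conv_lhs => rw [← sum_weightedHomogeneousComponent a f]
      exact finsum_eq_sum _ (hfin f)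
    rw [SetLike.mem_coe, h1]
    exact Ideal.sum_mem _ fun m hm => Ideal.subset_span ⟨f, hf, m, hm, rfl⟩

end Pool.Agent.FSig.GR
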