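import Pool.Agent.Work.MP_27623f_ag.GR.PsiC
import Pool.Agent.Work.MP_27623f_ag.GR.PsiH
import Pool.Agent.Work.MP_27623f_ag.GR.Gen
import Pool.Agent.Work.MP_27623f_ag.GR.Rel

/-!
MODULE Lift (size M).  The key lemma: a partial homomorphism `S^{1/q} → S` extends.

PROOF.  `exists_gens`: `y, a`; `exists_rels`: `b, F`.  Put `B = ∑ a_i + b`.  `q ∑ a_i + b q ≥ (q - 1) ∑ a_i + b` (`q ≥ 1`), so
`Psi_ker` and `Psi_pow_mul` apply.  For `x : S` choose `g_x` with `aeval y g_x = x` and put `Φ x = Psi q y f g_x`; by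
`Psi_ker` (and additivity) it does not depend on the choice: `aeval y g = aeval y g'` implies `Psi g = Psi g'`.  Hence `Φ` is
additive, `Φ (s^q x) = s Φ x` (`Psi_pow_mul`), and for `x ∈ 𝒜 n` one can take `g_x` weighted homogeneous of degree `n`
(the component of degree `n` of any preimage: its image is the component of `x`, since `aeval y` maps the component of degree
`m` into `𝒜 m`, `aeval_mem`), so `Φ x = f x` for `n ≤ D` by `Psi_hom`.  Last claim: `g_x = ∑ monomial μ c` with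
`∑ μ_i a_i = n ≠ j`; in `(∏ y_i^(μ_i / q)) * f (c ∏ y_i^(μ_i % q))` either some `μ_i / q > 0` and `y_i ∈ irr 𝒜` (`a_i ≥ 1`), or
`μ_i % q = μ_i` for all `i` and `f (c y^μ) ∈ irr 𝒜` by `hj` (`c y^μ ∈ 𝒜 n`).
-/

set_option autoImplicit false

namespace Pool.Agent.FSig.GR

open MvPolynomial

private theorem dec_comp {k S : Type*} [Field k] [CommRing S] [Algebra k S]
    (𝒜 : ℕ → Submodule k S) [GradedAlgebra 𝒜] {N : ℕ} {y : Fin N → S} {a : Fin N → ℕ}
    (hy : ∀ i, y i ∈ 𝒜 (a i)) (n : ℕ) (g : MvPolynomial (Fin N) k) :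
    ((DirectSum.decompose 𝒜 (aeval y g) n : 𝒜 n) : S) =
      aeval y (weightedHomogeneousComponent a n g) := by
  classical
  induction g using MvPolynomial.induction_on' with
  | monomial μ c =>
    have hm : IsWeightedHomogeneous a (monomial μ c) (Finsupp.weight a μ) :=
      isWeightedHomogeneous_monomial a μ c rfl
    have hmem := aeval_mem 𝒜 hy hm
    rw [weightedHomogeneousComponent_of_mem
      ((mem_weightedHomogeneousSubmodule k a (Finsupp.weight a μ) _).2 hm)]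
    by_cases h : n = Finsupp.weight a μ
    · rw [if_pos h, h, DirectSum.decompose_of_mem_same 𝒜 hmem]
    · rw [if_neg h, map_zero, DirectSum.decompose_of_mem_ne 𝒜 hmem (Ne.symm h)]
  | add p q hp hq =>
    rw [map_add, DirectSum.decompose_add, DirectSum.add_apply, Submodule.coe_add, hp, hq,
      map_add, map_add]

theorem exists_bound {k S : Type*} [Field k] [CommRing S] [Algebra k S] (𝒜 : ℕ → Submodule k S)
    [GradedAlgebra 𝒜] [Algebra.FiniteType k S] (h0 : ∀ s ∈ 𝒜 0, ∃ c : k, algebraMap k S c = s)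
    (p : ℕ) [Fact p.Prime] [CharP k p] :
    ∃ B : ℕ, ∀ (e D j : ℕ) (f : S →+ S), p ^ e * B ≤ D → Part 𝒜 (p ^ e) D f →
      (∀ n, n ≠ j → ∀ x ∈ 𝒜 n, f x ∈ irr 𝒜) →
      ∃ Φ : S →+ S, (∀ s x, Φ (s ^ p ^ e * x) = s * Φ x) ∧ (∀ n, n ≤ D → ∀ x ∈ 𝒜 n, Φ x = f x) ∧
        ∀ n, n ≠ j → ∀ x ∈ 𝒜 n, Φ x ∈ irr 𝒜 := by
  classical
  obtain ⟨N, y, a, hy, ha, hsurj⟩ := exists_gens 𝒜 h0
  obtain ⟨b, F, hF, hF0, hFs⟩ := exists_rels 𝒜 hy
  refine ⟨∑ i, a i + b, ?_⟩
  intro e D j f hBD hf hj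
  have hq : 0 < p ^ e := pow_pos (Fact.out : p.Prime).pos e
  have hD1 : (p ^ e - 1) * ∑ i, a i + b ≤ D := by
    refine le_trans ?_ hBD
    obtain ⟨r, hr⟩ : ∃ r, p ^ e = r + 1 := ⟨p ^ e - 1, by omega⟩
    rw [hr]
    simp only [Nat.add_sub_cancel]
    nlinarith [Nat.zero_le (r * b), Nat.zero_le (∑ i, a i)]
  have hD2 : (p ^ e - 1) * ∑ i, a i ≤ D := le_trans (Nat.le_add_right _ _) hD1
  -- independence of the choice
  have wd : ∀ g g' : MvPolynomial (Fin N) k, aeval y g = aeval y g' →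
      Psi (p ^ e) y f g = Psi (p ^ e) y f g' := by
    intro g g' h
    have h1 : Psi (p ^ e) y f (g - g') = 0 :=
      Psi_ker 𝒜 hq hy hf hF hF0 hD1 (hFs _ (by rw [map_sub, h, sub_self]))
    have h2 := Psi_add (p ^ e) y f (g - g') g'
    rw [sub_add_cancel, h1, zero_add] at h2
    exact h2
  choose G hG using hsurj
  -- homogeneous representatives
  have hom : ∀ n, ∀ x ∈ 𝒜 n, ∃ g : MvPolynomial (Fin N) k, IsWeightedHomogeneous a g n ∧
      aeval y g = x := by
    intro n x hx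
    refine ⟨weightedHomogeneousComponent a n (G x),
      weightedHomogeneousComponent_isWeightedHomogeneous n (G x), ?_⟩
    rw [← dec_comp 𝒜 hy, hG, DirectSum.decompose_of_mem_same 𝒜 hx]
  let Φ : S →+ S := AddMonoidHom.mk' (fun x => Psi (p ^ e) y f (G x)) (by
    intro x x'
    rw [← Psi_add]
    exact wd _ _ (by rw [map_add, hG, hG, hG]))
  have hΦ : ∀ (x : S) (g : MvPolynomial (Fin N) k), aeval y g = x →
      Φ x = Psi (p ^ e) y f g := by
    intro x g hg
    exact wd _ _ (by rw [hG, hg])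
  refine ⟨Φ, ?_, ?_, ?_⟩
  · intro s x
    rw [hΦ (s ^ p ^ e * x) (G s ^ p ^ e * G x) (by rw [map_mul, map_pow, hG, hG]),
      Psi_pow_mul 𝒜 p e hy hf hD2, hG, hΦ x (G x) (hG x)]
  · intro n hn x hx
    obtain ⟨g, hg, hgx⟩ := hom n x hx
    rw [hΦ x g hgx, Psi_hom 𝒜 hy hf hg hn, hgx]
  · intro n hn x hx
    obtain ⟨g, hg, hgx⟩ := hom n x hx
    rw [hΦ x g hgx]
    refine (irr 𝒜).sum_mem ?_
    intro μ hμ
    have hw : Finsupp.weight a μ = n := hg (mem_support_iff.1 hμ)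
    by_cases h : ∃ i, μ i / p ^ e ≠ 0
    · obtain ⟨i, hi⟩ := h
      refine (irr 𝒜).mul_mem_right _ ?_
      have hyi : y i ∈ irr 𝒜 := HomogeneousIdeal.mem_irrelevant_of_mem 𝒜 (ha i) (hy i)
      have h1 : y i ^ (μ i / p ^ e) ∈ irr 𝒜 := Ideal.pow_mem_of_mem _ hyi _ (Nat.pos_of_ne_zero hi)
      exact Ideal.mem_of_dvd _ (Finset.dvd_prod_of_mem (fun i => y i ^ (μ i / p ^ e))
        (Finset.mem_univ i)) h1
    · have h' : ∀ i, μ i / p ^ e = 0 := by
        intro i
        by_contra hi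
        exact h ⟨i, hi⟩
      have h'' : ∀ i, μ i % p ^ e = μ i := by
        intro i
        have := Nat.div_add_mod (μ i) (p ^ e)
        rw [h' i, mul_zero, zero_add] at this
        exact this
      refine (irr 𝒜).mul_mem_left _ ?_
      refine hj n hn _ ?_
      have h2 : aeval y (monomial μ (coeff μ g)) =
          algebraMap k S (coeff μ g) * ∏ i, y i ^ (μ i % p ^ e) := by
        rw [aeval_monomial, Finsupp.prod_fintype _ _ (fun i => pow_zero _)]
        congr 1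
        exact Finset.prod_congr rfl fun i _ => by rw [h'' i]
      rw [← h2]
      exact aeval_mem 𝒜 hy (isWeightedHomogeneous_monomial a μ _ hw)

end Pool.Agent.FSig.GR
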