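import Pool.Agent.Work.MP_27623f_ag.GR.Defs

/-!
MODULE PsiA (size S-M).  `Psi` is additive and `Y^(q β) g ↦ y^β Psi g`.

PROOF.  `Psi` is a sum over the support of a function which vanishes for coefficient `0` and is additive in the
coefficient; so it is the sum over any finite set containing the support (`Finset.sum_subset`), which gives additivity.
For `Psi_monomial_mul`: by additivity (`MvPolynomial.induction_on'` or `g = ∑ monomial`) it is enough to take
`g = monomial μ c`; then `monomial (q β + μ) c` and `(q β_i + μ_i) / q = β_i + μ_i / q`, `(q β_i + μ_i) % q = μ_i % q`.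
-/

set_option autoImplicit false

namespace Pool.Agent.FSig.GR

open MvPolynomial

variable {k S : Type*} [Field k] [CommRing S] [Algebra k S]

private theorem Psi_superset (q : ℕ) {N : ℕ} (y : Fin N → S) (f : S →+ S)
    (g : MvPolynomial (Fin N) k) (t : Finset (Fin N →₀ ℕ)) (h : g.support ⊆ t) :
    Psi q y f g =
      ∑ μ ∈ t, (∏ i, y i ^ (μ i / q)) * f (algebraMap k S (coeff μ g) * ∏ i, y i ^ (μ i % q)) := by
  unfold Psi
  refine Finset.sum_subset h fun μ _ hμ => ?_
  rw [MvPolynomial.notMem_support_iff.1 hμ, map_zero, zero_mul, map_zero, mul_zero]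

theorem Psi_zero (q : ℕ) {N : ℕ} (y : Fin N → S) (f : S →+ S) :
    Psi q y f (0 : MvPolynomial (Fin N) k) = 0 := by
  unfold Psi
  rw [MvPolynomial.support_zero, Finset.sum_empty]

theorem Psi_add (q : ℕ) {N : ℕ} (y : Fin N → S) (f : S →+ S) (g h : MvPolynomial (Fin N) k) :
    Psi q y f (g + h) = Psi q y f g + Psi q y f h := by
  classical
  rw [Psi_superset q y f (g + h) (g.support ∪ h.support) MvPolynomial.support_add,
    Psi_superset q y f g (g.support ∪ h.support) Finset.subset_union_left,
    Psi_superset q y f h (g.support ∪ h.support) Finset.subset_union_right,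
    ← Finset.sum_add_distrib]
  refine Finset.sum_congr rfl fun μ _ => ?_
  rw [coeff_add, map_add, add_mul, map_add, mul_add]

theorem Psi_sum (q : ℕ) {N : ℕ} (y : Fin N → S) (f : S →+ S) {ι : Type*} (s : Finset ι)
    (g : ι → MvPolynomial (Fin N) k) :
    Psi q y f (∑ i ∈ s, g i) = ∑ i ∈ s, Psi q y f (g i) := by
  classical
  induction s using Finset.induction_on with
  | empty => rw [Finset.sum_empty, Finset.sum_empty, Psi_zero]
  | insert a s ha ih => rw [Finset.sum_insert ha, Finset.sum_insert ha, Psi_add, ih]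

theorem Psi_monomial (q : ℕ) {N : ℕ} (y : Fin N → S) (f : S →+ S) (μ : Fin N →₀ ℕ) (c : k) :
    Psi q y f (monomial μ c) =
      (∏ i, y i ^ (μ i / q)) * f (algebraMap k S c * ∏ i, y i ^ (μ i % q)) := by
  classical
  rw [Psi_superset q y f (monomial μ c) {μ} MvPolynomial.support_monomial_subset,
    Finset.sum_singleton, coeff_monomial, if_pos rfl]

theorem Psi_monomial_mul {q : ℕ} (hq : 0 < q) {N : ℕ} (y : Fin N → S) (f : S →+ S)
    (β : Fin N →₀ ℕ) (g : MvPolynomial (Fin N) k) :
    Psi q y f (monomial (q • β) 1 * g) = (∏ i, y i ^ β i) * Psi q y f g := by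
  induction g using MvPolynomial.induction_on' with
  | monomial μ c =>
    rw [monomial_mul, one_mul, Psi_monomial, Psi_monomial, ← mul_assoc, ← Finset.prod_mul_distrib]
    have h1 : ∀ i, (q • β + μ) i / q = β i + μ i / q := fun i => by
      rw [Finsupp.add_apply, Finsupp.smul_apply, smul_eq_mul, Nat.mul_add_div hq]
    have h2 : ∀ i, (q • β + μ) i % q = μ i % q := fun i => by
      rw [Finsupp.add_apply, Finsupp.smul_apply, smul_eq_mul, Nat.mul_add_mod]
    simp only [h1, h2, pow_add]
  | add g h hg hh =>
    rw [mul_add, Psi_add, Psi_add, hg, hh, mul_add]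

end Pool.Agent.FSig.GR
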