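import Pool.Agent.Work.MP_27623f_ag.GR.PsiA

/-!
MODULE PsiC (size S-M).  `Psi (c^q g) = c Psi g` for constants, and `Psi (h^q g) = h(y) Psi g`.

PROOF.  `Psi_C_mul`: by additivity `g = monomial μ c'`; the element `x = c' y^(μ mod q)` is homogeneous of degree
`n = ∑ a_i (μ_i % q) ≤ (q - 1) ∑ a_i ≤ D`, so `hf` with `i = 0`, `s = algebraMap k S c ∈ 𝒜 0`
(`SetLike.algebraMap_mem_graded`) gives `f (c^q x) = c f x`.
`Psi_pow_mul`: `h = ∑ monomial β c`, `h ^ p ^ e = ∑ monomial (p ^ e • β) (c ^ p ^ e)` (`sum_pow_char_pow` in characteristic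
`p`), `monomial (q • β) (c ^ q) = C (c ^ q) * monomial (q • β) 1`; use `Psi_C_mul`, `Psi_monomial_mul`, additivity.
-/

set_option autoImplicit false

namespace Pool.Agent.FSig.GR

open MvPolynomial

variable {k S : Type*} [Field k] [CommRing S] [Algebra k S]

theorem Psi_C_mul (𝒜 : ℕ → Submodule k S) [GradedAlgebra 𝒜] {q D : ℕ} (hq : 0 < q) {N : ℕ}
    {y : Fin N → S} {a : Fin N → ℕ} (hy : ∀ i, y i ∈ 𝒜 (a i)) {f : S →+ S} (hf : Part 𝒜 q D f)
    (hD : (q - 1) * ∑ i, a i ≤ D) (c : k) (g : MvPolynomial (Fin N) k) :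
    Psi q y f (C (c ^ q) * g) = algebraMap k S c * Psi q y f g := by
  induction g using MvPolynomial.induction_on' with
  | monomial μ c' =>
    rw [C_mul_monomial, Psi_monomial, Psi_monomial]
    have h0 : algebraMap k S c ∈ 𝒜 0 := SetLike.algebraMap_mem_graded 𝒜 c
    have h1 : ∏ i, y i ^ (μ i % q) ∈ 𝒜 (∑ i, (μ i % q) • a i) :=
      SetLike.prod_pow_mem_graded (A := 𝒜) (i := a) (g := y) (fun i => μ i % q) (fun i _ => hy i)
    have h2 : algebraMap k S c' * ∏ i, y i ^ (μ i % q) ∈ 𝒜 (0 + ∑ i, (μ i % q) • a i) :=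
      SetLike.mul_mem_graded (SetLike.algebraMap_mem_graded 𝒜 c') h1
    rw [zero_add] at h2
    have h3 : (∑ i, (μ i % q) • a i) + q * 0 ≤ D := by
      rw [mul_zero, add_zero]
      refine le_trans ?_ hD
      rw [Finset.mul_sum]
      refine Finset.sum_le_sum fun i _ => ?_
      rw [smul_eq_mul]
      exact Nat.mul_le_mul_right _ (Nat.le_sub_one_of_lt (Nat.mod_lt _ hq))
    have h4 := hf 0 _ _ _ h0 h2 h3
    have h5 : algebraMap k S (c ^ q * c') * ∏ i, y i ^ (μ i % q) =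
        algebraMap k S c ^ q * (algebraMap k S c' * ∏ i, y i ^ (μ i % q)) := by
      rw [map_mul, map_pow]
      ring
    rw [h5, h4]
    ring
  | add g h hg hh => rw [mul_add, Psi_add, Psi_add, hg, hh, mul_add]

theorem Psi_pow_mul (𝒜 : ℕ → Submodule k S) [GradedAlgebra 𝒜] (p e : ℕ) [Fact p.Prime] [CharP k p]
    {D : ℕ} {N : ℕ} {y : Fin N → S} {a : Fin N → ℕ} (hy : ∀ i, y i ∈ 𝒜 (a i)) {f : S →+ S}
    (hf : Part 𝒜 (p ^ e) D f) (hD : (p ^ e - 1) * ∑ i, a i ≤ D)
    (h g : MvPolynomial (Fin N) k) :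
    Psi (p ^ e) y f (h ^ p ^ e * g) = aeval y h * Psi (p ^ e) y f g := by
  have hq : 0 < p ^ e := pow_pos (Fact.out : p.Prime).pos e
  have hch : CharP (MvPolynomial (Fin N) k) p := inferInstance
  induction h using MvPolynomial.induction_on' with
  | monomial β c =>
    have h1 : (monomial β c : MvPolynomial (Fin N) k) ^ p ^ e * g =
        C (c ^ p ^ e) * (monomial (p ^ e • β) 1 * g) := by
      rw [monomial_pow, ← mul_assoc, C_mul_monomial, mul_one]
    rw [h1, Psi_C_mul 𝒜 hq hy hf hD, Psi_monomial_mul hq, aeval_monomial,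
      Finsupp.prod_fintype _ _ (fun i => pow_zero _)]
    ring
  | add h1 h2 e1 e2 =>
    rw [add_pow_char_pow, add_mul, Psi_add, e1, e2, map_add, add_mul]

end Pool.Agent.FSig.GR
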