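import Pool.Agent.Work.MP_27623f_ag.GR.Fin

/-!
MP_27623f_ag, partial answer to Q1 (Watanabe-Yoshida): positive answer for every graded ring.
`R` is the localization or the completion of a finitely generated graded algebra `S = ∑_{n ≥ 0} S_n` over a field `S_0` at
`S_+`, a normal domain of dimension at least two.  Every irreducible `m`-primary ideal `I` in a sufficiently high power of
`m`, together with `J = (I : m)`, realizes the F-signature, exactly for every Frobenius power.  There is no condition on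
the canonical class, on its symbolic algebra, or on the singularities.
-/

set_option autoImplicit false

namespace Pool.Agent.Results.MP_27623f_ag.GradedRings

open Filter Topology Pool.Agent.FSig Pool.Agent.FSig.GR

universe u

/-- `c = e_HK(I) = lim length(R / I^{[p^e]}) / p^(e d)`, `d = dim R`. -/
def IsHK (R : Type*) [CommRing R] (p : ℕ) (I : Ideal R) (c : ℝ) : Prop :=
  ∃ d : ℕ, ringKrullDim R = d ∧
    Tendsto (fun e : ℕ => (colen (frobPow I (p ^ e)) : ℝ) / ((p : ℝ) ^ (e * d))) atTop (𝓝 c)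

/-- `s = s(R) = lim frk(R^{1/p^e}) / ([k^{1/p^e} : k] p^(e d))`, `d = dim R`. -/
def IsFSignature (R : Type u) [CommRing R] [IsLocalRing R] (p : ℕ) [ExpChar R p] (s : ℝ) : Prop :=
  ∃ d : ℕ, ringKrullDim R = d ∧
    Tendsto (fun e : ℕ => (freeRank R (RootMod R p e) : ℝ) /
      (rootDegree (IsLocalRing.ResidueField R) (p ^ e) * (p : ℝ) ^ (e * d))) atTop (𝓝 s)

/-- `length(R/I^{[q]}) - length(R/J^{[q]}) = frk(R^{1/q}) / [k^{1/q} : k]` for ALL `q = p^e`; hence
`e_HK(I) - e_HK(J) = s(R)`. -/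
def Realizes (R : Type u) [CommRing R] [IsLocalRing R] (p : ℕ) [ExpChar R p] (I J : Ideal R) :
    Prop :=
  (∀ e : ℕ, 0 < rootDegree (IsLocalRing.ResidueField R) (p ^ e) ∧
    (colen (frobPow I (p ^ e)) : ℝ) - colen (frobPow J (p ^ e)) =
      (freeRank R (RootMod R p e) : ℝ) /
        rootDegree (IsLocalRing.ResidueField R) (p ^ e)) ∧
  ∀ a b : ℝ, IsHK R p I a → IsHK R p J b →
    IsFSignature R p (a - b) ∧ ∀ s : ℝ, IsFSignature R p s → a - b = s

private theorem realizes {R : Type u} [CommRing R] [IsNoetherianRing R] [IsLocalRing R] (p : ℕ)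
    [Fact p.Prime] [CharP R p] (hF : (frobenius R p).Finite) (I : Ideal R) (w : R)
    (h4 : ∀ e : ℕ, rootDegree (IsLocalRing.ResidueField R) (p ^ e) * colen (frobPow I (p ^ e)) =
        rootDegree (IsLocalRing.ResidueField R) (p ^ e) *
          colen (frobPow (I ⊔ Ideal.span {w}) (p ^ e)) + freeRank R (RootMod R p e)) :
    Realizes R p I (I ⊔ Ideal.span {w}) := by
  set J := I ⊔ Ideal.span {w} with hJ
  have h0 : ∀ e : ℕ, 0 < rootDegree (IsLocalRing.ResidueField R) (p ^ e) :=
    fun e => rootDegree_pos p e hF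
  have h5 : ∀ e : ℕ, (colen (frobPow I (p ^ e)) : ℝ) - colen (frobPow J (p ^ e)) =
      (freeRank R (RootMod R p e) : ℝ) / rootDegree (IsLocalRing.ResidueField R) (p ^ e) := by
    intro e
    have h6 : ((rootDegree (IsLocalRing.ResidueField R) (p ^ e) : ℕ) : ℝ) *
        (colen (frobPow I (p ^ e)) : ℝ) =
        (rootDegree (IsLocalRing.ResidueField R) (p ^ e) : ℝ) *
          (colen (frobPow J (p ^ e)) : ℝ) + (freeRank R (RootMod R p e) : ℝ) := by
      exact_mod_cast h4 e
    have h7 : ((rootDegree (IsLocalRing.ResidueField R) (p ^ e) : ℕ) : ℝ) ≠ 0 := by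
      exact_mod_cast (h0 e).ne'
    rw [eq_div_iff h7]
    linarith [h6]
  refine ⟨fun e => ⟨h0 e, h5 e⟩, ?_⟩
  rintro a b ⟨da, hda, ha⟩ ⟨db, hdb, hb⟩
  have hdd : db = da := by
    have := hdb.symm.trans hda
    exact_mod_cast this
  subst hdd
  have hsig : Tendsto (fun e : ℕ => (freeRank R (RootMod R p e) : ℝ) /
      (rootDegree (IsLocalRing.ResidueField R) (p ^ e) * (p : ℝ) ^ (e * db))) atTop
      (𝓝 (a - b)) := by
    refine (ha.sub hb).congr (fun e => ?_)
    rw [← sub_div, h5 e, div_div]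
  refine ⟨⟨db, hdb, hsig⟩, ?_⟩
  rintro s ⟨ds, hds, hs⟩
  have hdd' : ds = db := by
    have := hds.symm.trans hdb
    exact_mod_cast this
  subst hdd'
  exact tendsto_nhds_unique hsig hs

/-- Let `S = ∑_{n ≥ 0} S_n` be a finitely generated graded algebra over a field `k = S_0` and `S → R` a
homomorphism to a Noetherian local ring `(R, m)` with `m = S_+ R` and `S / S_+^N = R / m^N` for all `N` (for
instance the localization or the completion of `S` at `S_+`).  Suppose that `R` is an `F`-finite normal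
domain of characteristic `p` and dimension at least two.  Then there is `T` such that every irreducible
`m`-primary ideal `I ⊆ m^T` and `J = (I : m)` satisfy
`length(R/I^{[q]}) - length(R/J^{[q]}) = frk(R^{1/q}) / [k^{1/q} : k]` for all `q`, and there are such
ideals. -/
theorem result {k S : Type*} [Field k] [CommRing S] [Algebra k S] (𝒜 : ℕ → Submodule k S)
    [GradedAlgebra 𝒜] [Algebra.FiniteType k S] (h0 : ∀ s ∈ 𝒜 0, ∃ c : k, algebraMap k S c = s)
    (R : Type u) [CommRing R] [IsDomain R] [IsIntegrallyClosed R] [IsNoetherianRing R]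
    [IsLocalRing R] [Algebra S R] (hR : LocalModel 𝒜 R) (p : ℕ) [Fact p.Prime] [CharP R p]
    (hF : (frobenius R p).Finite) (hd : 2 ≤ ringKrullDim R) :
    (∃ T : ℕ, ∀ I J : Ideal R, (∃ N, IsLocalRing.maximalIdeal R ^ N ≤ I) → I ≠ ⊤ →
      (∀ A B : Ideal R, A ⊓ B = I → A = I ∨ B = I) → I ≤ IsLocalRing.maximalIdeal R ^ T →
      (∀ x, x ∈ J ↔ ∀ y ∈ IsLocalRing.maximalIdeal R, x * y ∈ I) → Realizes R p I J) ∧
    ∃ I J : Ideal R, I < J ∧ J ≠ ⊤ ∧ (∃ N, IsLocalRing.maximalIdeal R ^ N ≤ I) ∧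
      (∀ A B : Ideal R, A ⊓ B = I → A = I ∨ B = I) ∧
      (∀ x, x ∈ J ↔ ∀ y ∈ IsLocalRing.maximalIdeal R, x * y ∈ I) ∧ Realizes R p I J := by
  obtain ⟨T, hT⟩ := deep_pair 𝒜 h0 hR p hF hd
  have key : ∀ I J : Ideal R, (∃ N, IsLocalRing.maximalIdeal R ^ N ≤ I) → I ≠ ⊤ →
      (∀ A B : Ideal R, A ⊓ B = I → A = I ∨ B = I) → I ≤ IsLocalRing.maximalIdeal R ^ T →
      (∀ x, x ∈ J ↔ ∀ y ∈ IsLocalRing.maximalIdeal R, x * y ∈ I) → Realizes R p I J := by
    intro I J hprim hI hirr hIT hJ
    obtain ⟨w, hw, hJw⟩ := exists_socle I J hI hprim hirr hJ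
    have := realizes p hF I w (hT I w hw hIT)
    rwa [← hJw] at this
  refine ⟨⟨T, key⟩, ?_⟩
  obtain ⟨I, w, hw, hIT⟩ := exists_deep_pair (R := R) hd (max T 2)
  obtain ⟨hI, hirr⟩ := irreducible_of_pair I w hw
  let J : Ideal R :=
    { carrier := {x | ∀ y ∈ IsLocalRing.maximalIdeal R, x * y ∈ I}
      add_mem' := fun {a b} ha hb y hy => by
        rw [add_mul]
        exact I.add_mem (ha y hy) (hb y hy)
      zero_mem' := fun y _ => by
        rw [zero_mul]
        exact I.zero_mem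
      smul_mem' := fun c x hx y hy => by
        rw [smul_eq_mul, mul_assoc]
        exact I.mul_mem_left c (hx y hy) }
  have hJ : ∀ x, x ∈ J ↔ ∀ y ∈ IsLocalRing.maximalIdeal R, x * y ∈ I := fun _ => Iff.rfl
  obtain ⟨w', hw', hJw'⟩ := exists_socle I J hI hw.prim hirr hJ
  have hm : I ≤ IsLocalRing.maximalIdeal R ^ 2 :=
    hIT.trans (Ideal.pow_le_pow_right (le_max_right T 2))
  have hJtop : J ≠ ⊤ := by
    intro h
    have h1 : ∀ y ∈ IsLocalRing.maximalIdeal R, (1 : R) * y ∈ I :=
      (hJ 1).1 (by rw [h]; exact Submodule.mem_top)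
    have h2 : IsLocalRing.maximalIdeal R ≤ IsLocalRing.maximalIdeal R ^ 2 := fun y hy => by
      have := h1 y hy
      rw [one_mul] at this
      exact hm this
    have h3 : IsLocalRing.maximalIdeal R = ⊥ := by
      refine Submodule.eq_bot_of_le_smul_of_le_jacobson_bot (IsLocalRing.maximalIdeal R) _
        (IsNoetherian.noetherian _) ?_ (IsLocalRing.maximalIdeal_le_jacobson _)
      rw [smul_eq_mul, ← pow_two]
      exact h2
    have h4 : IsField R := IsLocalRing.isField_iff_maximalIdeal_eq.2 h3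
    have h5 : ringKrullDim R = 0 := ringKrullDim_eq_zero_of_isField h4
    rw [h5] at hd
    exact absurd hd (by decide)
  refine ⟨I, J, ?_, hJtop, hw.prim, hirr, hJ, key I J hw.prim hI hirr
    (hIT.trans (Ideal.pow_le_pow_right (le_max_left T 2))) hJ⟩
  refine lt_of_le_of_ne (fun x hx => (hJ x).2 fun y _ => I.mul_mem_right y hx) fun h1 => ?_
  apply hw'.nmem
  rw [h1, hJw']
  exact Ideal.mem_sup_right (Ideal.mem_span_singleton_self _)

end Pool.Agent.Results.MP_27623f_ag.GradedRings
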